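import Pool.Agent.FBM.StmtD

/-!
# DCB: the bound of `z F'(z)` given by conformality
-/

open MeasureTheory Set Filter Topology
open scoped Real

namespace Pool.Agent.FBM

namespace DCB

theorem re_hz (hDHR : Stmt_DHR) {f : ℝ → ℝ} (hf : Integrable f cm) {z : ℂ} (hz1 : ‖z‖ < 1) :
    (hz f z).re = (1 / (2 * π)) * ∫ t, pk z t * f t ∂cm := by
  have h := hDHR f hf z hz1
  unfold po at h
  have h1 : (∫ t, ((pk z t : ℝ) : ℂ) * ((f t : ℝ) : ℂ) ∂cm) =
      ((∫ t, pk z t * f t ∂cm : ℝ) : ℂ) := by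
    rw [← integral_complex_ofReal]
    congr 1
    funext t
    push_cast
    rfl
  rw [h1] at h
  have h2 : (((hz f z).re : ℝ) : ℂ) =
      (((1 / (2 * π)) * ∫ t, pk z t * f t ∂cm : ℝ) : ℂ) := by
    rw [h]
    push_cast
    rfl
  exact_mod_cast h2

theorem int_pk (hDPK : Stmt_DPK) {f : ℝ → ℝ} (hf : Integrable f cm) {z : ℂ} (hz1 : ‖z‖ < 1) :
    Integrable (fun t => pk z t * f t) cm := by
  obtain ⟨hc, -, -, -, -⟩ := hDPK z hz1
  obtain ⟨C, hC⟩ := (isCompact_Icc (a := -π) (b := π)).exists_bound_of_continuousOn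
    hc.continuousOn
  refine hf.bdd_mul (c := C) hc.aestronglyMeasurable ?_
  unfold cm
  refine (ae_restrict_iff' measurableSet_Ioc).2 (Eventually.of_forall fun t ht => ?_)
  exact hC t ⟨ht.1.le, ht.2⟩

theorem abs_re (hDPK : Stmt_DPK) (hDHR : Stmt_DHR) {f : ℝ → ℝ} (hf : Integrable f cm) {z : ℂ}
    (hz1 : ‖z‖ < 1) : |(hz f z).re| ≤ (hz (fun t => |f t|) z).re := by
  rw [re_hz hDHR hf hz1, re_hz hDHR hf.abs hz1, abs_mul,
    abs_of_nonneg (by positivity : (0 : ℝ) ≤ 1 / (2 * π))]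
  refine mul_le_mul_of_nonneg_left ?_ (by positivity)
  refine (abs_integral_le_integral_abs).trans (le_of_eq ?_)
  congr 1
  funext t
  rw [abs_mul, abs_of_pos ((hDPK z hz1).2.2.1 t)]

theorem sum_re (hDPK : Stmt_DPK) (hDHR : Stmt_DHR) {T : Fin 3 → ℝ → ℝ}
    (hT : ∀ j, Integrable (T j) cm) {z : ℂ} (hz1 : ‖z‖ < 1) :
    (hz (fun t => ∑ j, |T j t|) z).re = ∑ j, (hz (fun t => |T j t|) z).re := by
  have hi : Integrable (fun t => ∑ j, |T j t|) cm := integrable_finsetSum _ fun j _ => (hT j).abs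
  rw [re_hz hDHR hi hz1]
  have h1 : ∀ j, (hz (fun t => |T j t|) z).re = (1 / (2 * π)) * ∫ t, pk z t * |T j t| ∂cm :=
    fun j => re_hz hDHR (hT j).abs hz1
  simp_rw [h1]
  rw [← Finset.mul_sum, ← integral_finsetSum _ fun j _ => int_pk hDPK (hT j).abs hz1]
  simp_rw [Finset.mul_sum]

end DCB

theorem t_DCB (hDDT : Stmt_DDT) (hDHR : Stmt_DHR) (hDPK : Stmt_DPK) : Stmt_DCB := by
  intro D X lam T hX z hz1 i
  have hint := hX.el.T_int
  have hh : ∀ j, z * deriv (hz (X j)) z = hz (T j) z := fun j =>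
    hDDT (X j) (T j) (hX.el.oct.adm.fe j) (hint j) (fun g hg => hX.el.weak j g hg) z hz1
  have hsum : ∑ j, (hz (T j) z) ^ 2 = 0 := by
    have h := hX.conf z hz1
    calc ∑ j, (hz (T j) z) ^ 2 = ∑ j, z ^ 2 * (deriv (hz (X j)) z) ^ 2 := by
          refine Finset.sum_congr rfl fun j _ => ?_
          rw [← hh j, mul_pow]
      _ = 0 := by rw [← Finset.mul_sum, h, mul_zero]
  have hre : ∑ j, ((hz (T j) z).re ^ 2 - (hz (T j) z).im ^ 2) = 0 := by
    have h := congrArg Complex.re hsum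
    rw [Complex.re_sum, Complex.zero_re] at h
    rw [← h]
    refine Finset.sum_congr rfl fun j _ => ?_
    rw [sq (hz (T j) z), Complex.mul_re]
    ring
  rw [hh i, DCB.sum_re hDPK hDHR hint hz1]
  have hle : ∀ j, |(hz (T j) z).re| ≤ (hz (fun t => |T j t|) z).re := fun j =>
    DCB.abs_re hDPK hDHR (hint j) hz1
  set S := ∑ j, |(hz (T j) z).re| with hS
  have hS0 : 0 ≤ S := Finset.sum_nonneg fun j _ => abs_nonneg _
  have hS1 : S ≤ ∑ j, (hz (fun t => |T j t|) z).re := Finset.sum_le_sum fun j _ => hle j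
  have h1 : ‖hz (T i) z‖ ^ 2 ≤ ∑ j, ‖hz (T j) z‖ ^ 2 :=
    Finset.single_le_sum (f := fun j => ‖hz (T j) z‖ ^ 2) (fun j _ => sq_nonneg _)
      (Finset.mem_univ i)
  have h2 : ∑ j, ‖hz (T j) z‖ ^ 2 = 2 * ∑ j, (hz (T j) z).re ^ 2 := by
    have h3 : ∀ j, ‖hz (T j) z‖ ^ 2 = (hz (T j) z).re ^ 2 + (hz (T j) z).im ^ 2 := by
      intro j
      rw [← Complex.normSq_eq_norm_sq, Complex.normSq_apply]
      ring
    simp_rw [h3]
    rw [Finset.sum_add_distrib]
    rw [Finset.sum_sub_distrib] at hre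
    linarith
  have h3 : ∑ j, (hz (T j) z).re ^ 2 ≤ S ^ 2 := by
    have h4 : ∀ j ∈ Finset.univ, (hz (T j) z).re ^ 2 ≤ |(hz (T j) z).re| * S := by
      intro j _
      rw [← sq_abs, sq]
      refine mul_le_mul_of_nonneg_left ?_ (abs_nonneg _)
      exact Finset.single_le_sum (f := fun j => |(hz (T j) z).re|) (fun j _ => abs_nonneg _)
        (Finset.mem_univ j)
    refine (Finset.sum_le_sum h4).trans (le_of_eq ?_)
    rw [← Finset.sum_mul, sq]
  have h5 : ‖hz (T i) z‖ ≤ Real.sqrt 2 * S := by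
    refine abs_le_of_sq_le_sq' ?_ (by positivity) |>.2
    rw [mul_pow, Real.sq_sqrt (by norm_num : (0 : ℝ) ≤ 2)]
    linarith
  exact h5.trans (mul_le_mul_of_nonneg_left hS1 (Real.sqrt_nonneg 2))

end Pool.Agent.FBM
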