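import Pool.Agent.FBM.StmtD

/-!
# FBM, module DPK: the Poisson kernel
-/

open MeasureTheory Set Filter Topology
open scoped Real

namespace Pool.Agent.FBM

namespace DPK

theorem ep_one (t : ℝ) : ep 1 t = circleMap 0 1 t := by
  simp [ep, circleMap]

theorem norm_ep (t : ℝ) : ‖ep 1 t‖ = 1 := by
  rw [ep_one]; simp

theorem ne (z : ℂ) (hz : ‖z‖ < 1) (t : ℝ) : ep 1 t - z ≠ 0 := by
  intro h
  have : ep 1 t = z := sub_eq_zero.1 h
  rw [← this, norm_ep] at hz
  exact lt_irrefl _ hz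

theorem kernel_eq (z : ℂ) (t : ℝ) : poissonKernel 0 z (circleMap 0 1 t) = pk z t := by
  rw [poissonKernel_def, ← ep_one, pk, sub_zero, sub_zero, norm_ep]
  norm_num

theorem cont_ep : Continuous (fun t : ℝ => ep 1 t) := by
  unfold ep
  fun_prop

theorem cont (z : ℂ) (hz : ‖z‖ < 1) : Continuous (pk z) := by
  unfold pk
  refine Continuous.div continuous_const ?_ ?_
  · exact ((cont_ep.sub continuous_const).norm).pow 2
  · intro t
    exact pow_ne_zero 2 (norm_ne_zero_iff.2 (ne z hz t))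

theorem per (z : ℂ) : Function.Periodic (pk z) (2 * π) := by
  intro t
  have : ep 1 (t + 2 * π) = ep 1 t := by
    rw [ep_one, ep_one]
    exact periodic_circleMap 0 1 t
  unfold pk
  rw [this]

theorem pos (z : ℂ) (hz : ‖z‖ < 1) (t : ℝ) : 0 < pk z t := by
  unfold pk
  have h1 : 0 < ‖ep 1 t - z‖ := norm_pos_iff.2 (ne z hz t)
  have h2 : 0 < 1 - ‖z‖ ^ 2 := by
    have := norm_nonneg z
    nlinarith
  positivity

theorem int (z : ℂ) (hz : ‖z‖ < 1) : ∫ t, pk z t ∂cm = 2 * π := by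
  have hpi : (0 : ℝ) < π := Real.pi_pos
  have h1 : Real.circleAverage (poissonKernel 0 z • (fun _ => (1 : ℂ))) 0 1 = 1 :=
    DiffContOnCl.circleAverage_poissonKernel_smul (c := 0) (R := 1) (f := fun _ => (1 : ℂ))
      diffContOnCl_const (by simpa using hz)
  rw [Real.circleAverage_def] at h1
  have h2 : (fun θ : ℝ => (poissonKernel 0 z • (fun _ => (1 : ℂ))) (circleMap 0 1 θ))
      = fun θ : ℝ => ((pk z θ : ℝ) : ℂ) := by
    funext θ
    rw [Pi.smul_apply', kernel_eq]
    simp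
  rw [h2, intervalIntegral.integral_ofReal] at h1
  have h3 : (2 * π)⁻¹ * ∫ θ in (0 : ℝ)..2 * π, pk z θ = 1 := by
    have h4 : (((2 * π)⁻¹ * ∫ θ in (0 : ℝ)..2 * π, pk z θ : ℝ) : ℂ) = ((1 : ℝ) : ℂ) := by
      rw [Complex.ofReal_one, ← h1, Complex.real_smul, Complex.ofReal_mul]
    exact_mod_cast h4
  have h5 : ∫ θ in (0 : ℝ)..2 * π, pk z θ = 2 * π := by
    field_simp at h3
    linarith
  have h6 := (per z).intervalIntegral_add_eq 0 (-π)
  rw [zero_add] at h6
  have h7 : -π + 2 * π = π := by ring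
  rw [h7, h5, intervalIntegral.integral_of_le (by linarith)] at h6
  unfold cm
  exact h6.symm

theorem form (z : ℂ) (t : ℝ) : pk z t = ((ep 1 t + z) / (ep 1 t - z)).re := by
  rw [← kernel_eq, ep_one]
  have := congrFun (poissonKernel_eq_re_herglotzRieszKernel (c := 0) (w := z)) (circleMap 0 1 t)
  rw [this, Function.comp_apply, herglotzRieszKernel_def, sub_zero, sub_zero]

end DPK

theorem t_DPK : Stmt_DPK := fun z hz =>
  ⟨DPK.cont z hz, DPK.per z, DPK.pos z hz, DPK.form z, DPK.int z hz⟩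

end Pool.Agent.FBM
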