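import Mathlib
import Pool.Agent.FBM.StmtD

/-!
# D: assembly of block D
-/

set_option autoImplicit false

open MeasureTheory Set Filter Topology
open scoped Real

namespace Pool.Agent.FBM

/-- The boundary values of critical maps. -/
theorem t_D (hDDT : Stmt_DDT) (hDCB : Stmt_DCB) (hDBF : Stmt_DBF) (hDIM : Stmt_DIM) :
    Stmt_D := by
  intro D X lam T hX
  have hPB : ∀ i, PB (X i) (fun t => ∑ j, |T j t|) (Real.sqrt 2) := by
    intro i
    have hfe := hX.el.oct.adm.fe i
    refine ⟨hfe.meas, hfe.per, hfe.bdd, ?_, ?_, ?_, Real.sqrt_nonneg 2, ?_⟩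
    · intro t
      change ∑ j, |T j (t + 2 * π)| = ∑ j, |T j t|
      refine Finset.sum_congr rfl fun j _ => ?_
      rw [hX.el.T_per j t]
    · exact integrable_finsetSum _ fun j _ => (hX.el.T_int j).abs
    · intro t
      exact Finset.sum_nonneg fun j _ => abs_nonneg _
    · intro z hz
      exact hDCB hX z hz i
  choose f hf using fun i => hDBF (X i) _ _ (hPB i)
  refine ⟨f, fun i => ⟨hf i, ?_⟩⟩
  exact hDIM (X i) (T i) (f i) (hf i) (hX.el.T_per i) (hX.el.T_int i)
    (hDDT (X i) (T i) (hX.el.oct.adm.fe i) (hX.el.T_int i) (hX.el.weak i))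

end Pool.Agent.FBM
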