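import Pool.Agent.FBM.StmtD

/-!
# Module DAC: functions dominated by an integral are integrals
-/

open MeasureTheory Set Filter Topology
open scoped Real

namespace Pool.Agent.FBM

namespace DAC

/-- Interval integrability of a periodic integrable function. -/
lemma ii {τ : ℝ → ℝ} (hp : Function.Periodic τ (2 * π)) (hi : Integrable τ cm) (a b : ℝ) :
    IntervalIntegrable τ volume a b := by
  refine hp.intervalIntegrable Real.two_pi_pos.ne' (t := -π) ?_ a b
  rw [show -π + 2 * π = π by ring, intervalIntegrable_iff_integrableOn_Ioc_of_le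
    (by linarith [Real.pi_pos])]
  exact hi

lemma ac {h τ : ℝ → ℝ} (hp : Function.Periodic τ (2 * π)) (hi : Integrable τ cm)
    (hd : ∀ s t : ℝ, s ≤ t → |h t - h s| ≤ ∫ v in s..t, τ v) (a b : ℝ) :
    AbsolutelyContinuousOnInterval h a b := by
  have h1 := (ii hp hi a b).absolutelyContinuousOnInterval_intervalIntegral (c := a) left_mem_uIcc
  refine squeeze_zero (fun E => Finset.sum_nonneg fun i _ => dist_nonneg) (fun E => ?_) h1
  refine Finset.sum_le_sum fun i _ => ?_
  have key : ∀ x y : ℝ, x ≤ y → dist (h x) (h y) ≤ dist (∫ v in a..x, τ v) (∫ v in a..y, τ v) := by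
    intro x y hxy
    have h2 := hd x y hxy
    rw [dist_comm, Real.dist_eq, dist_comm, Real.dist_eq,
      intervalIntegral.integral_interval_sub_left (ii hp hi _ _) (ii hp hi _ _)]
    exact h2.trans (le_abs_self _)
  rcases le_total (E.2 i).1 (E.2 i).2 with h3 | h3
  · exact key _ _ h3
  · rw [dist_comm, dist_comm (∫ v in a..(E.2 i).1, τ v)]
    exact key _ _ h3

lemma ofR {f : ℝ → ℝ} {a b : ℝ} (h : IntervalIntegrable f volume a b) :
    IntervalIntegrable (fun t => (f t : ℂ)) volume a b :=
  ⟨Integrable.ofReal h.1, Integrable.ofReal h.2⟩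

lemma per_deriv {h : ℝ → ℝ} (hp : Function.Periodic h (2 * π)) :
    Function.Periodic (deriv h) (2 * π) := by
  intro t
  rw [← deriv_comp_add_const]
  congr 1
  funext x
  exact hp x

end DAC

open DAC in
theorem t_DAC : Stmt_DAC := by
  intro g τ hg hp hi hd
  have hre : Function.Periodic (fun t => (g t).re) (2 * π) := fun t => by
    show (g (t + 2 * π)).re = (g t).re
    rw [hg t]
  have him : Function.Periodic (fun t => (g t).im) (2 * π) := fun t => by
    show (g (t + 2 * π)).im = (g t).im
    rw [hg t]
  have h1 : ∀ a b, AbsolutelyContinuousOnInterval (fun t => (g t).re) a b :=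
    ac hp hi fun s t hst => by
      rw [← Complex.sub_re]
      exact (Complex.abs_re_le_norm _).trans (hd s t hst)
  have h2 : ∀ a b, AbsolutelyContinuousOnInterval (fun t => (g t).im) a b :=
    ac hp hi fun s t hst => by
      rw [← Complex.sub_im]
      exact (Complex.abs_im_le_norm _).trans (hd s t hst)
  have i1 : ∀ a b, IntervalIntegrable (fun t => ((deriv (fun t => (g t).re) t : ℝ) : ℂ)) volume a b :=
    fun a b => ofR (h1 a b).intervalIntegrable_deriv
  have i2 : ∀ a b, IntervalIntegrable (fun t => ((deriv (fun t => (g t).im) t : ℝ) : ℂ) * Complex.I)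
      volume a b :=
    fun a b => (ofR (h2 a b).intervalIntegrable_deriv).mul_const _
  refine ⟨fun t => ((deriv (fun t => (g t).re) t : ℝ) : ℂ) +
    ((deriv (fun t => (g t).im) t : ℝ) : ℂ) * Complex.I, fun t => ?_, ?_, fun s t => ?_⟩
  · have e1 := per_deriv hre t
    have e2 := per_deriv him t
    show ((deriv (fun t => (g t).re) (t + 2 * π) : ℝ) : ℂ) +
      ((deriv (fun t => (g t).im) (t + 2 * π) : ℝ) : ℂ) * Complex.I = _
    rw [e1, e2]
  · have := (i1 (-π) π).add (i2 (-π) π)
    rw [intervalIntegrable_iff_integrableOn_Ioc_of_le (by linarith [Real.pi_pos])] at this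
    exact this
  · rw [intervalIntegral.integral_add (i1 s t) (i2 s t), intervalIntegral.integral_mul_const,
      intervalIntegral.integral_ofReal, intervalIntegral.integral_ofReal,
      (h1 s t).integral_deriv_eq_sub, (h2 s t).integral_deriv_eq_sub]
    refine Complex.ext ?_ ?_
    · simp
    · simp

end Pool.Agent.FBM
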