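import Pool.Agent.FBM.StmtD

/-!
# DBF: assembly of the boundary values
-/

open MeasureTheory Set Filter Topology
open scoped Real

namespace Pool.Agent.FBM

namespace DBF

theorem integrable_of_bdd {u : ℝ → ℝ} (hm : Measurable u) (hb : ∃ B, ∀ t, |u t| ≤ B) :
    Integrable u cm := by
  obtain ⟨B, hB⟩ := hb
  have : IsFiniteMeasure cm := by
    unfold cm
    infer_instance
  exact Integrable.of_bound hm.aestronglyMeasurable B (Eventually.of_forall hB)

end DBF

open DBF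

theorem t_DBF (hDHD : Stmt_DHD) (hDUC : Stmt_DUC) (hDXC : Stmt_DXC) (hDRE : Stmt_DRE)
    (hDLE : Stmt_DLE) (hDAC : Stmt_DAC) (hDLM : Stmt_DLM) : Stmt_DBF := by
  intro u τ C h
  have hu : Integrable u cm := integrable_of_bdd h.meas h.bdd
  obtain ⟨g, hg, hgp, hgu⟩ := hDUC u τ C h
  have hd := hDHD u hu
  obtain ⟨h1, h2, h3⟩ := hDXC u g hd hg hgp hgu
  have h4 := hDRE u g h.meas h.per hu hg hgp hgu
  have h5 : ∀ t, Tendsto (fun r : ℝ => hz u (ep r t)) (𝓝[<] 1) (𝓝 (g t)) := by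
    intro t
    rw [Metric.tendsto_nhds]
    intro ε hε
    obtain ⟨r₀, hr₀, hr⟩ := hgu (ε / 2) (half_pos hε)
    have h6 : max r₀ 0 < 1 := max_lt hr₀ one_pos
    filter_upwards [Ioo_mem_nhdsLT h6] with r hr1
    rw [dist_eq_norm]
    exact (hr r t ((le_max_left _ _).trans_lt hr1.1) ((le_max_right _ _).trans hr1.1.le)
      hr1.2).trans_lt (half_lt_self hε)
  have h6 := hDLE u τ C h g h5
  obtain ⟨f, hf1, hf2, hf3⟩ := hDAC g (fun t => C * τ t) hgp
    (fun t => by
      change C * τ (t + 2 * π) = C * τ t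
      rw [h.per' t]) (h.int.const_mul C) (fun s t hst => by
      rw [intervalIntegral.integral_const_mul]
      exact h6 s t hst)
  have h7 : DifferentiableOn ℂ (Fx u) (Metric.ball 0 1) := hd.congr h2
  have h8 : ∀ s t : ℝ, Fx u (ep 1 t) - Fx u (ep 1 s) = ∫ v in s..t, f v := fun s t => by
    rw [h3, h3, hf3]
  obtain ⟨-, h9⟩ := hDLM (Fx u) f h1 h7 hf1 hf2 h8
  refine ⟨f, h1, h2, h7, ?_, hf1, hf2, h8, h9⟩
  filter_upwards [h4] with t ht
  rw [h3, ht]

end Pool.Agent.FBM
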