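import Pool.Agent.FBM.StmtD

/-!
# Block D, DDT: `z F' = hz T`

Comparison of the Taylor coefficients of `z (hz u)'` and `hz T`.
-/

open MeasureTheory Set Filter Topology
open scoped Real

namespace Pool.Agent.FBM

namespace DDT

lemma finite_cm : IsFiniteMeasure cm := by
  unfold cm
  infer_instance

lemma exp_neg_eq (n : ℕ) (t : ℝ) :
    Complex.exp (-(((n : ℕ) : ℤ) * t * Complex.I)) =
      ((Real.cos (n * t) : ℝ) : ℂ) - ((Real.sin (n * t) : ℝ) : ℂ) * Complex.I := by
  have h : (-((((n : ℕ) : ℤ) : ℂ) * t * Complex.I)) = (((-(n * t) : ℝ)) : ℂ) * Complex.I := by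
    push_cast
    ring
  rw [h, Complex.exp_mul_I, ← Complex.ofReal_cos, ← Complex.ofReal_sin, Real.cos_neg,
    Real.sin_neg]
  push_cast
  ring

lemma int_cos {f : ℝ → ℝ} (hf : Integrable f cm) (n : ℕ) :
    Integrable (fun t => f t * Real.cos (n * t)) cm := by
  refine Integrable.mul_bdd (c := 1) hf ?_ ?_
  · exact (by fun_prop : Continuous (fun t : ℝ => Real.cos (n * t))).aestronglyMeasurable
  · exact Filter.Eventually.of_forall fun t => by
      simpa using Real.abs_cos_le_one (n * t)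

lemma int_sin {f : ℝ → ℝ} (hf : Integrable f cm) (n : ℕ) :
    Integrable (fun t => f t * Real.sin (n * t)) cm := by
  refine Integrable.mul_bdd (c := 1) hf ?_ ?_
  · exact (by fun_prop : Continuous (fun t : ℝ => Real.sin (n * t))).aestronglyMeasurable
  · exact Filter.Eventually.of_forall fun t => by
      simpa using Real.abs_sin_le_one (n * t)

lemma ca_eq {f : ℝ → ℝ} (hf : Integrable f cm) (n : ℕ) :
    ca (fun t => (f t : ℂ)) (n : ℕ) = (1 / (2 * π) : ℂ) *
      (((∫ t, f t * Real.cos (n * t) ∂cm : ℝ) : ℂ) -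
        ((∫ t, f t * Real.sin (n * t) ∂cm : ℝ) : ℂ) * Complex.I) := by
  unfold ca
  congr 1
  rw [← integral_complex_ofReal, ← integral_complex_ofReal, ← integral_mul_const,
    ← integral_sub (int_cos hf n).ofReal ((int_sin hf n).ofReal.mul_const _)]
  refine integral_congr_ae (Filter.Eventually.of_forall fun t => ?_)
  simp only
  rw [exp_neg_eq]
  push_cast
  ring

lemma ca_bound {f : ℝ → ℂ} (n : ℤ) :
    ‖ca f n‖ ≤ 1 / (2 * π) * ∫ t, ‖f t‖ ∂cm := by
  unfold ca
  rw [norm_mul]
  have h1 : ‖(1 / (2 * π) : ℂ)‖ = 1 / (2 * π) := by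
    rw [norm_div, norm_mul]
    simp [abs_of_pos Real.pi_pos]
  rw [h1]
  refine mul_le_mul_of_nonneg_left ?_ (by positivity)
  refine (norm_integral_le_integral_norm _).trans (le_of_eq ?_)
  refine integral_congr_ae (Filter.Eventually.of_forall fun t => ?_)
  simp only
  rw [norm_mul]
  have h2 : (-((n : ℂ) * t * Complex.I)) = (((-(n * t) : ℝ)) : ℂ) * Complex.I := by
    push_cast
    ring
  rw [h2, Complex.norm_exp_ofReal_mul_I, mul_one]

lemma fe_int {u : ℝ → ℝ} (hu : FE u) : Integrable u cm := by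
  have := finite_cm
  obtain ⟨C, hC⟩ := hu.bdd
  refine Integrable.mono' (integrable_const C) hu.meas.aestronglyMeasurable ?_
  exact Filter.Eventually.of_forall fun t => by simpa using hC t

end DDT

open DDT in
theorem t_DDT (hDEN : Stmt_DEN) (hDHS : Stmt_DHS) : Stmt_DDT := by
  intro u T hu hT hw z hz1
  have hui : Integrable u cm := fe_int hu
  -- the coefficients
  have hco : ∀ n : ℕ, ca (fun t => (T t : ℂ)) (n : ℕ) = (n : ℂ) * ca (fun t => (u t : ℂ)) (n : ℕ) := by
    intro n
    obtain ⟨hc, hs, hf⟩ := hDEN n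
    obtain ⟨h1, h2⟩ := hf u hu
    have h3 : ∫ t, T t * Real.cos (n * t) ∂cm = n * ∫ t, u t * Real.cos (n * t) ∂cm := by
      rw [← h1]
      exact (hw _ hc).symm
    have h4 : ∫ t, T t * Real.sin (n * t) ∂cm = n * ∫ t, u t * Real.sin (n * t) ∂cm := by
      rw [← h2]
      exact (hw _ hs).symm
    rw [ca_eq hT n, ca_eq hui n, h3, h4]
    push_cast
    ring
  have hc0 : ca (fun t => (T t : ℂ)) 0 = 0 := by
    have := hco 0
    simpa using this
  set c : ℕ → ℂ := fun n => ca (fun t => (u t : ℂ)) (n + 1 : ℕ) with hc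
  set d : ℕ → ℂ := fun n => ca (fun t => (T t : ℂ)) (n + 1 : ℕ) with hd
  have hdc : ∀ n, d n = ((n : ℂ) + 1) * c n := by
    intro n
    have := hco (n + 1)
    simp only [hc, hd]
    rw [this]
    push_cast
    ring
  have hsu : ∀ w : ℂ, ‖w‖ < 1 → HasSum (fun n : ℕ => 2 * c n * w ^ (n + 1))
      (hz u w - ca (fun t => (u t : ℂ)) 0) := fun w hw => hDHS u hui w hw
  have hsT : HasSum (fun n : ℕ => 2 * d n * z ^ (n + 1)) (hz T z) := by
    have := hDHS T hT z hz1
    rw [hc0, sub_zero] at this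
    exact this
  -- the derivative
  obtain ⟨ρ, hρ1, hρ2⟩ := exists_between hz1
  have hρ0 : 0 < ρ := lt_of_le_of_lt (norm_nonneg _) hρ1
  set B : ℝ := 1 / (2 * π) * ∫ t, ‖((T t : ℝ) : ℂ)‖ ∂cm with hB
  have hBd : ∀ n, ‖d n‖ ≤ B := fun n => ca_bound _
  have hder : HasDerivAt (fun w => ∑' n, 2 * c n * w ^ (n + 1)) (∑' n, 2 * d n * z ^ n) z := by
    refine hasDerivAt_tsum_of_isPreconnected (u := fun n => 2 * B * ρ ^ n)
      (t := Metric.ball (0 : ℂ) ρ) (y₀ := 0) (g := fun n w => 2 * c n * w ^ (n + 1))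
      (g' := fun n w => 2 * d n * w ^ n) ?_ Metric.isOpen_ball
      (convex_ball _ _).isPreconnected ?_ ?_ ?_ ?_ ?_
    · exact (summable_geometric_of_lt_one hρ0.le hρ2).mul_left _
    · intro n y _
      have h := (hasDerivAt_pow (n + 1) y).const_mul (2 * c n)
      have h5 : 2 * c n * (((n + 1 : ℕ) : ℂ) * y ^ (n + 1 - 1)) = 2 * d n * y ^ n := by
        rw [hdc n]
        push_cast
        ring
      rw [h5] at h
      exact h
    · intro n y hy
      have hy' : ‖y‖ ≤ ρ := by
        have := Metric.mem_ball.1 hy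
        rw [dist_zero_right] at this
        exact this.le
      rw [norm_mul, norm_mul, norm_pow]
      have h2 : ‖(2 : ℂ)‖ = 2 := by simp
      rw [h2]
      have hB0 : 0 ≤ B := (norm_nonneg _).trans (hBd n)
      exact mul_le_mul (mul_le_mul_of_nonneg_left (hBd n) (by norm_num))
        (pow_le_pow_left₀ (norm_nonneg _) hy' n) (by positivity) (by positivity)
    · exact Metric.mem_ball_self hρ0
    · exact (hsu 0 (by simp)).summable
    · rw [Metric.mem_ball, dist_zero_right]
      exact hρ1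
  have heq : hz u =ᶠ[𝓝 z] fun w => (∑' n, 2 * c n * w ^ (n + 1)) + ca (fun t => (u t : ℂ)) 0 := by
    have hmem : Metric.ball (0 : ℂ) 1 ∈ 𝓝 z := Metric.isOpen_ball.mem_nhds (by
      rw [Metric.mem_ball, dist_zero_right]; exact hz1)
    filter_upwards [hmem] with w hw'
    have hw1 : ‖w‖ < 1 := by
      rw [Metric.mem_ball, dist_zero_right] at hw'; exact hw'
    rw [(hsu w hw1).tsum_eq]
    ring
  have hdu : deriv (hz u) z = ∑' n, 2 * d n * z ^ n := by
    rw [heq.deriv_eq]
    exact (hder.add_const _).deriv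
  rw [hdu, ← tsum_mul_left, ← hsT.tsum_eq]
  refine tsum_congr fun n => ?_
  ring

end Pool.Agent.FBM
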