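import Pool.Agent.FBM.StmtA
import Pool.Agent.FBM.StmtD

/-!
# DEN: the Douglas form with trigonometric functions
-/

open MeasureTheory Set Filter Topology
open scoped Real

namespace Pool.Agent.FBM

theorem t_DEN (h : Stmt_A_cos) : Stmt_DEN := by
  intro n
  have h0 : FE (fun _ : ℝ => (0 : ℝ)) :=
    ⟨measurable_const, fun _ => rfl, ⟨0, fun _ => by simp⟩, by simp⟩
  refine ⟨(h _ h0 n).1, (h _ h0 n).2.1, fun f hf => (h f hf n).2.2⟩

end Pool.Agent.FBM
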