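import Pool.Agent.FBM.StmtD

/-!
# DEQ: equicontinuity on the circles (MP_947d36_gt, block D)
-/

open MeasureTheory Set Filter Topology
open scoped Real

namespace Pool.Agent.FBM

namespace DEQ

theorem norm_ep (r t : ℝ) (hr : 0 ≤ r) : ‖ep r t‖ = r := by
  rw [ep, norm_mul, Complex.norm_exp_ofReal_mul_I, Complex.norm_real, mul_one, Real.norm_eq_abs,
    abs_of_nonneg hr]

theorem hasDerivAt_ep (r t : ℝ) :
    HasDerivAt (fun v : ℝ => ep r v) (ep r t * Complex.I) t := by
  have h1 : HasDerivAt (fun v : ℝ => (v : ℂ) * Complex.I) Complex.I t := by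
    have := (hasDerivAt_id t).ofReal_comp.mul_const Complex.I
    simpa using this
  have h2 := (h1.cexp).const_mul (r : ℂ)
  refine h2.congr_deriv ?_
  rw [ep]
  ring

theorem continuous_ep (r : ℝ) : Continuous (fun v : ℝ => ep r v) :=
  continuous_iff_continuousAt.2 fun t => (hasDerivAt_ep r t).continuousAt

theorem mem_ball_ep {r : ℝ} (h0 : 0 ≤ r) (h1 : r < 1) (t : ℝ) :
    ep r t ∈ Metric.ball (0 : ℂ) 1 := by
  rw [mem_ball_zero_iff, norm_ep r t h0]
  exact h1

/-- the derivative along the circle -/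
theorem hasDerivAt_comp {F : ℂ → ℂ} (hF : DifferentiableOn ℂ F (Metric.ball 0 1)) {r : ℝ}
    (h0 : 0 ≤ r) (h1 : r < 1) (t : ℝ) :
    HasDerivAt (fun v : ℝ => F (ep r v)) (deriv F (ep r t) * (ep r t * Complex.I)) t := by
  have h2 : HasDerivAt F (deriv F (ep r t)) (ep r t) :=
    (hF.differentiableAt (Metric.isOpen_ball.mem_nhds (mem_ball_ep h0 h1 t))).hasDerivAt
  exact HasDerivAt.comp t h2 (hasDerivAt_ep r t)

theorem continuous_comp {F : ℂ → ℂ} (hF : ContinuousOn F (Metric.ball 0 1)) {r : ℝ}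
    (h0 : 0 ≤ r) (h1 : r < 1) : Continuous (fun v : ℝ => F (ep r v)) := by
  rw [← continuousOn_univ]
  exact hF.comp (continuous_ep r).continuousOn fun t _ => mem_ball_ep h0 h1 t

/-- the main estimate -/
theorem main {u τ : ℝ → ℝ} {C : ℝ} (hu : DifferentiableOn ℂ (hz u) (Metric.ball 0 1))
    (hτ : DifferentiableOn ℂ (hz τ) (Metric.ball 0 1))
    (hle : ∀ z : ℂ, ‖z‖ < 1 → ‖z * deriv (hz u) z‖ ≤ C * (hz τ z).re)
    {r δ s t : ℝ} (h0 : 0 ≤ r) (h1 : r < 1) (hst : s ≤ t) (htδ : t ≤ s + δ) :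
    ‖hz u (ep r t) - hz u (ep r s)‖ ≤ C * ∫ v in s..s + δ, (hz τ (ep r v)).re := by
  have hd : DifferentiableOn ℂ (deriv (hz u)) (Metric.ball 0 1) := hu.deriv Metric.isOpen_ball
  have hc1 : Continuous (fun v : ℝ => deriv (hz u) (ep r v) * (ep r v * Complex.I)) :=
    (continuous_comp hd.continuousOn h0 h1).mul ((continuous_ep r).mul continuous_const)
  have hc2 : Continuous (fun v : ℝ => C * (hz τ (ep r v)).re) :=
    continuous_const.mul (Complex.continuous_re.comp (continuous_comp hτ.continuousOn h0 h1))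
  have hb : ∀ v : ℝ, ‖deriv (hz u) (ep r v) * (ep r v * Complex.I)‖ ≤ C * (hz τ (ep r v)).re := by
    intro v
    have h2 := hle (ep r v) (by rw [norm_ep r v h0]; exact h1)
    have h3 : deriv (hz u) (ep r v) * (ep r v * Complex.I) =
        (ep r v * deriv (hz u) (ep r v)) * Complex.I := by ring
    rw [h3, norm_mul, Complex.norm_I, mul_one]
    exact h2
  have e1 : ∫ v in s..t, deriv (hz u) (ep r v) * (ep r v * Complex.I) =
      hz u (ep r t) - hz u (ep r s) :=
    intervalIntegral.integral_eq_sub_of_hasDerivAt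
      (f := fun v : ℝ => hz u (ep r v)) (fun v _ => hasDerivAt_comp hu h0 h1 v)
      (hc1.intervalIntegrable _ _)
  rw [← e1]
  calc ‖∫ v in s..t, deriv (hz u) (ep r v) * (ep r v * Complex.I)‖
      ≤ ∫ v in s..t, C * (hz τ (ep r v)).re :=
        intervalIntegral.norm_integral_le_of_norm_le hst
          (ae_of_all _ fun v _ => hb v) (hc2.intervalIntegrable _ _)
    _ ≤ ∫ v in s..s + δ, C * (hz τ (ep r v)).re := by
        apply intervalIntegral.integral_mono_interval le_rfl hst htδ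
        · exact ae_of_all _ fun v => (norm_nonneg _).trans (hb v)
        · exact hc2.intervalIntegrable _ _
    _ = C * ∫ v in s..s + δ, (hz τ (ep r v)).re := intervalIntegral.integral_const_mul _ _

end DEQ

theorem t_DEQ (hDHD : Stmt_DHD) (hDPA : Stmt_DPA) (hDTA : Stmt_DTA) : Stmt_DEQ := by
  intro u τ C hP ε hε
  have hui : Integrable u cm := by
    obtain ⟨B, hB⟩ := hP.bdd
    have : IsFiniteMeasure cm := by
      rw [cm]
      infer_instance
    exact Integrable.of_bound hP.meas.aestronglyMeasurable B (ae_of_all _ fun t => hB t)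
  have hu := hDHD u hui
  have hτ := hDHD τ hP.int
  have hC := hP.pos
  have hη : 0 < ε / (C + 1) := by positivity
  obtain ⟨δ, hδ, hδ'⟩ := hDTA τ hP.per' hP.int hP.nonneg _ hη
  have hfin : C * (ε / (C + 1)) ≤ ε := by
    rw [mul_div_assoc', div_le_iff₀ (by positivity)]
    nlinarith
  refine ⟨δ, hδ, ?_⟩
  intro r s t h0 h1 hst
  have key : ∀ a b : ℝ, a ≤ b → b ≤ a + δ → ‖hz u (ep r b) - hz u (ep r a)‖ ≤ ε := by
    intro a b hab hb
    have h2 := DEQ.main hu hτ hP.le h0 h1 hab hb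
    have h3 := hDPA τ hP.per' hP.int hP.nonneg δ _ hδ.le hδ' r h0 h1 a
    exact h2.trans ((mul_le_mul_of_nonneg_left h3 hC).trans hfin)
  rw [abs_le] at hst
  rcases le_total s t with h | h
  · rw [norm_sub_rev]
    exact key s t h (by linarith)
  · exact key t s h (by linarith)

end Pool.Agent.FBM
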