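import Pool.Agent.FBM.StmtD

/-!
# DHD: the Herglotz integral is holomorphic in the disc
-/

open MeasureTheory Set Filter Topology
open scoped Real

namespace Pool.Agent.FBM

theorem t_DHD (hDHS : Stmt_DHS) : Stmt_DHD := by
  intro f hf z₀ hz₀
  have hz1 : ‖z₀‖ < 1 := by simpa using hz₀
  obtain ⟨r, hr0, hr1⟩ := exists_between hz1
  have hrpos : 0 ≤ r := (norm_nonneg _).trans hr0.le
  set c : ℕ → ℂ := fun n => 2 * ca (fun t => (f t : ℂ)) (n + 1 : ℕ) with hc
  have hsum : ∀ z : ℂ, ‖z‖ < 1 → HasSum (fun n : ℕ => c n * z ^ (n + 1))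
      (hz f z - ca (fun t => (f t : ℂ)) 0) := fun z hz => hDHS f hf z hz
  have hnr : ‖(r : ℂ)‖ = r := by
    rw [Complex.norm_real, Real.norm_eq_abs, abs_of_nonneg hrpos]
  have hu : Summable fun n : ℕ => ‖c n * (r : ℂ) ^ (n + 1)‖ :=
    (hsum (r : ℂ) (by rw [hnr]; exact hr1)).summable.norm
  have hd : DifferentiableOn ℂ (fun z : ℂ => ∑' n : ℕ, c n * z ^ (n + 1)) (Metric.ball 0 r) := by
    refine Complex.differentiableOn_tsum_of_summable_norm hu (fun n => ?_) Metric.isOpen_ball ?_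
    · exact ((differentiable_const _).mul (differentiable_id.pow _)).differentiableOn
    · intro n w hw
      have hw1 : ‖w‖ < r := by simpa using hw
      rw [norm_mul (c n) (w ^ (n + 1)), norm_mul (c n) ((r : ℂ) ^ (n + 1)), norm_pow, norm_pow,
        hnr]
      exact mul_le_mul_of_nonneg_left (pow_le_pow_left₀ (norm_nonneg _) hw1.le _) (norm_nonneg _)
  have heq : ∀ z ∈ Metric.ball (0 : ℂ) r, hz f z =
      ca (fun t => (f t : ℂ)) 0 + ∑' n : ℕ, c n * z ^ (n + 1) := by
    intro z hz2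
    have hz3 : ‖z‖ < r := by simpa using hz2
    rw [(hsum z (hz3.trans hr1)).tsum_eq]
    ring
  have hd2 : DifferentiableOn ℂ (hz f) (Metric.ball 0 r) :=
    ((differentiableOn_const _).add hd).congr heq
  have h0 : Metric.ball (0 : ℂ) r ∈ 𝓝 z₀ := Metric.isOpen_ball.mem_nhds (by simpa using hr0)
  exact ((hd2 z₀ (mem_of_mem_nhds h0)).differentiableAt h0).differentiableWithinAt

end Pool.Agent.FBM
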