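import Pool.Agent.FBM.StmtD

/-!
# DHR: the real part of the Herglotz integral is the Poisson integral
-/

open MeasureTheory Set Filter Topology
open scoped Real

namespace Pool.Agent.FBM

namespace DHR

/-- the Herglotz kernel -/
noncomputable def hk (z : ℂ) (t : ℝ) : ℂ :=
  (Complex.exp (t * Complex.I) + z) / (Complex.exp (t * Complex.I) - z)

theorem ep_one (t : ℝ) : ep 1 t = Complex.exp (t * Complex.I) := by
  rw [ep, Complex.ofReal_one, one_mul]

theorem den_bound (z : ℂ) (t : ℝ) : 1 - ‖z‖ ≤ ‖Complex.exp (t * Complex.I) - z‖ := by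
  have h := norm_sub_norm_le (Complex.exp (t * Complex.I)) z
  rwa [Complex.norm_exp_ofReal_mul_I] at h

theorem den_ne {z : ℂ} (hz : ‖z‖ < 1) (t : ℝ) : Complex.exp (t * Complex.I) - z ≠ 0 := by
  have h := den_bound z t
  intro h0
  rw [h0, norm_zero] at h
  linarith

theorem hk_cont {z : ℂ} (hz : ‖z‖ < 1) : Continuous (hk z) := by
  unfold hk
  refine Continuous.div ?_ ?_ (den_ne hz)
  · fun_prop
  · fun_prop

theorem hk_bound {z : ℂ} (hz : ‖z‖ < 1) (t : ℝ) : ‖hk z t‖ ≤ 2 / (1 - ‖z‖) := by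
  have h1 : 0 < 1 - ‖z‖ := by linarith
  rw [hk, norm_div]
  have h2 : ‖Complex.exp (t * Complex.I) + z‖ ≤ 2 := by
    have h := norm_add_le (Complex.exp (t * Complex.I)) z
    rw [Complex.norm_exp_ofReal_mul_I] at h
    linarith
  exact div_le_div₀ (by norm_num) h2 h1 (den_bound z t)

/-- integrability of the kernel times an integrable function -/
theorem hk_int {z : ℂ} (hz : ‖z‖ < 1) {f : ℝ → ℂ} (hf : Integrable f cm) :
    Integrable (fun t => hk z t * f t) cm :=
  hf.bdd_mul (hk_cont hz).aestronglyMeasurable (Eventually.of_forall (hk_bound hz))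

end DHR

open DHR in
/-- DHR: the real part of the Herglotz integral is the Poisson integral. -/
theorem t_DHR (hDPK : Stmt_DPK) : Stmt_DHR := by
  intro f hf z hz'
  have hk1 := (hDPK z hz').2.2.2.1
  have h1 : Integrable (fun t => hk z t * ((f t : ℝ) : ℂ)) cm := hk_int hz' hf.ofReal
  have h2 : (hz f z).re = (1 / (2 * π)) * ∫ t, pk z t * f t ∂cm := by
    have e1 : hz f z = (((1 / (2 * π) : ℝ)) : ℂ) * ∫ t, hk z t * ((f t : ℝ) : ℂ) ∂cm := by
      rw [hz]
      push_cast
      rfl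
    rw [e1, Complex.re_ofReal_mul]
    congr 1
    have e2 : (∫ t, hk z t * ((f t : ℝ) : ℂ) ∂cm).re =
        ∫ t, (hk z t * ((f t : ℝ) : ℂ)).re ∂cm := by
      have h := Complex.reCLM.integral_comp_comm h1
      exact h.symm
    rw [e2]
    refine integral_congr_ae (Eventually.of_forall fun t => ?_)
    change (hk z t * ((f t : ℝ) : ℂ)).re = pk z t * f t
    rw [Complex.re_mul_ofReal, hk1 t, ep_one]
    rfl
  rw [h2, po]
  have e3 : ∫ t, (pk z t : ℂ) * ((f t : ℝ) : ℂ) ∂cm = ((∫ t, pk z t * f t ∂cm : ℝ) : ℂ) := by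
    rw [← integral_complex_ofReal]
    refine integral_congr_ae (Eventually.of_forall fun t => ?_)
    change (pk z t : ℂ) * ((f t : ℝ) : ℂ) = ((pk z t * f t : ℝ) : ℂ)
    rw [Complex.ofReal_mul]
  rw [e3]
  push_cast
  rfl

end Pool.Agent.FBM
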