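import Pool.Agent.FBM.StmtD

/-!
# DHS: power series of the Herglotz integral
-/

open MeasureTheory Set Filter Topology
open scoped Real

namespace Pool.Agent.FBM

namespace DHS

/-- the unit circle point -/
noncomputable def ee (t : ℝ) : ℂ := Complex.exp (t * Complex.I)

lemma norm_ee (t : ℝ) : ‖ee t‖ = 1 := Complex.norm_exp_ofReal_mul_I t

lemma cont_ee : Continuous ee := by
  unfold ee
  fun_prop

lemma ee_ne (t : ℝ) : ee t ≠ 0 := by
  intro h
  have := norm_ee t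
  rw [h, norm_zero] at this
  exact zero_ne_one this

lemma ee_sub_ne {z : ℂ} (hz : ‖z‖ < 1) (t : ℝ) : ee t - z ≠ 0 := by
  intro h
  have h1 : ee t = z := sub_eq_zero.mp h
  have h2 := norm_ee t
  rw [h1] at h2
  exact absurd h2 (ne_of_lt hz)

lemma exp_neg_pow (n : ℕ) (t : ℝ) :
    Complex.exp (-((((n + 1 : ℕ) : ℤ) : ℂ) * t * Complex.I)) = ((ee t)⁻¹) ^ (n + 1) := by
  unfold ee
  rw [← Complex.exp_neg, ← Complex.exp_nat_mul]
  congr 1
  push_cast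
  ring

/-- the expansion of the kernel -/
lemma kernel_sum {z : ℂ} (hz : ‖z‖ < 1) (t : ℝ) :
    HasSum (fun n : ℕ => 2 * ((ee t)⁻¹) ^ (n + 1) * z ^ (n + 1))
      ((ee t + z) / (ee t - z) - 1) := by
  have hw : ‖(ee t)⁻¹ * z‖ < 1 := by
    rw [norm_mul, norm_inv, norm_ee, inv_one, one_mul]
    exact hz
  have h1 : HasSum (fun n : ℕ => ((ee t)⁻¹ * z) ^ n) (1 - (ee t)⁻¹ * z)⁻¹ :=
    hasSum_geometric_of_norm_lt_one hw
  have h2 := h1.mul_left (2 * ((ee t)⁻¹ * z))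
  have h3 : 2 * ((ee t)⁻¹ * z) * (1 - (ee t)⁻¹ * z)⁻¹ = (ee t + z) / (ee t - z) - 1 := by
    have ha := ee_ne t
    have hb := ee_sub_ne hz t
    have hc : 1 - (ee t)⁻¹ * z = (ee t - z) / ee t := by
      field_simp
    rw [hc]
    field_simp
    ring
  rw [h3] at h2
  have h4 : (fun n : ℕ => 2 * ((ee t)⁻¹) ^ (n + 1) * z ^ (n + 1))
      = fun n : ℕ => 2 * ((ee t)⁻¹ * z) * ((ee t)⁻¹ * z) ^ n := by
    funext n
    ring
  rw [h4]
  exact h2

/-- the kernel -/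
noncomputable def kk (z : ℂ) (t : ℝ) : ℂ := (ee t + z) / (ee t - z)

lemma cont_kk {z : ℂ} (hz : ‖z‖ < 1) : Continuous (kk z) := by
  unfold kk
  exact (cont_ee.add continuous_const).div (cont_ee.sub continuous_const)
    (fun t => ee_sub_ne hz t)

lemma norm_kk {z : ℂ} (hz : ‖z‖ < 1) (t : ℝ) : ‖kk z t‖ ≤ 2 / (1 - ‖z‖) := by
  unfold kk
  rw [norm_div]
  have h1 : ‖ee t + z‖ ≤ 2 := by
    refine (norm_add_le _ _).trans ?_
    rw [norm_ee]
    linarith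
  have h2 : 1 - ‖z‖ ≤ ‖ee t - z‖ := by
    have := norm_sub_norm_le (ee t) z
    rw [norm_ee] at this
    exact this
  have h3 : 0 < 1 - ‖z‖ := by linarith
  exact div_le_div₀ (by norm_num) h1 h3 h2

lemma int_kk {f : ℝ → ℝ} (hf : Integrable f cm) {z : ℂ} (hz : ‖z‖ < 1) :
    Integrable (fun t => kk z t * (f t : ℂ)) cm := by
  have h1 : Integrable (fun t => (f t : ℂ)) cm := hf.ofReal
  exact h1.bdd_mul (c := 2 / (1 - ‖z‖)) (cont_kk hz).aestronglyMeasurable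
    (Filter.Eventually.of_forall (fun t => norm_kk hz t))

/-- the terms -/
noncomputable def FF (f : ℝ → ℝ) (z : ℂ) (n : ℕ) (t : ℝ) : ℂ :=
  (2 * ((ee t)⁻¹) ^ (n + 1) * z ^ (n + 1)) * (f t : ℂ)

lemma norm_FF (f : ℝ → ℝ) (z : ℂ) (n : ℕ) (t : ℝ) :
    ‖FF f z n t‖ = (2 * ‖z‖ ^ (n + 1)) * ‖f t‖ := by
  unfold FF
  rw [norm_mul, norm_mul, norm_mul, norm_pow, norm_pow, norm_inv, norm_ee, Complex.norm_real]
  simp

lemma int_FF {f : ℝ → ℝ} (hf : Integrable f cm) (z : ℂ) (n : ℕ) :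
    Integrable (FF f z n) cm := by
  have h1 : Integrable (fun t => (f t : ℂ)) cm := hf.ofReal
  have hc : Continuous (fun t => 2 * ((ee t)⁻¹) ^ (n + 1) * z ^ (n + 1)) :=
    ((continuous_const.mul ((cont_ee.inv₀ ee_ne).pow (n + 1))).mul continuous_const)
  refine h1.bdd_mul (c := 2 * ‖z‖ ^ (n + 1)) hc.aestronglyMeasurable
    (Filter.Eventually.of_forall (fun t => le_of_eq ?_))
  rw [norm_mul, norm_mul, norm_pow, norm_pow, norm_inv, norm_ee]
  simp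

lemma integral_FF (f : ℝ → ℝ) (z : ℂ) (n : ℕ) :
    ∫ t, FF f z n t ∂cm = (2 * π : ℂ) *
      (2 * ca (fun t => (f t : ℂ)) ((n + 1 : ℕ) : ℤ) * z ^ (n + 1)) := by
  have h1 : (fun t => FF f z n t) = fun t => (2 * z ^ (n + 1)) *
      ((f t : ℂ) * Complex.exp (-((((n + 1 : ℕ) : ℤ) : ℂ) * t * Complex.I))) := by
    funext t
    rw [exp_neg_pow]
    unfold FF
    ring
  rw [h1, integral_const_mul]
  unfold ca
  have hpi : (π : ℂ) ≠ 0 := by
    exact_mod_cast Real.pi_ne_zero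
  generalize (∫ t, (f t : ℂ) * Complex.exp (-((((n + 1 : ℕ) : ℤ) : ℂ) * t * Complex.I)) ∂cm) = W
  field_simp

lemma ca_zero (f : ℝ → ℝ) :
    ca (fun t => (f t : ℂ)) 0 = (1 / (2 * π) : ℂ) * ∫ t, (f t : ℂ) ∂cm := by
  unfold ca
  simp

end DHS

open DHS in
/-- The power series of the Herglotz integral. -/
theorem t_DHS : Stmt_DHS := by
  intro f hf z hz
  have hint : ∀ n : ℕ, Integrable (FF f z n) cm := fun n => int_FF hf z n
  have hnorm : ∀ n : ℕ, ∫ t, ‖FF f z n t‖ ∂cm = 2 * ‖z‖ ^ (n + 1) * ∫ t, ‖f t‖ ∂cm := by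
    intro n
    rw [← integral_const_mul]
    exact integral_congr_ae (Filter.Eventually.of_forall (fun t => norm_FF f z n t))
  have hsum : Summable fun n : ℕ => ∫ t, ‖FF f z n t‖ ∂cm := by
    have h1 : Summable fun n : ℕ => ‖z‖ ^ n :=
      summable_geometric_of_lt_one (norm_nonneg z) hz
    have h2 := h1.mul_left (2 * ‖z‖ * ∫ t, ‖f t‖ ∂cm)
    have h3 : (fun n : ℕ => ∫ t, ‖FF f z n t‖ ∂cm)
        = fun n : ℕ => (2 * ‖z‖ * ∫ t, ‖f t‖ ∂cm) * ‖z‖ ^ n := by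
      funext n
      rw [hnorm n]
      ring
    rw [h3]
    exact h2
  have hmain := hasSum_integral_of_summable_integral_norm hint hsum
  have htsum : ∀ t, ∑' n : ℕ, FF f z n t = (kk z t) * (f t : ℂ) - (f t : ℂ) := by
    intro t
    have h1 := (kernel_sum hz t).mul_right (f t : ℂ)
    have h2 : ∑' n : ℕ, FF f z n t = ((ee t + z) / (ee t - z) - 1) * (f t : ℂ) := h1.tsum_eq
    rw [h2]
    unfold kk
    ring
  have hI : ∫ t, ∑' n : ℕ, FF f z n t ∂cm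
      = (∫ t, kk z t * (f t : ℂ) ∂cm) - ∫ t, (f t : ℂ) ∂cm := by
    have hfc : Integrable (fun t => (f t : ℂ)) cm := hf.ofReal
    have h1 := integral_sub (int_kk hf hz) hfc
    rw [← h1]
    exact integral_congr_ae (Filter.Eventually.of_forall (fun t => htsum t))
  rw [hI] at hmain
  have h5 := hmain.mul_left (1 / (2 * π) : ℂ)
  have hpi : (π : ℂ) ≠ 0 := by
    exact_mod_cast Real.pi_ne_zero
  have h6 : (fun n : ℕ => (1 / (2 * π) : ℂ) * ∫ t, FF f z n t ∂cm)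
      = fun n : ℕ => 2 * ca (fun t => (f t : ℂ)) ((n + 1 : ℕ) : ℤ) * z ^ (n + 1) := by
    funext n
    rw [integral_FF]
    field_simp
  have h7 : (1 / (2 * π) : ℂ) * ((∫ t, kk z t * (f t : ℂ) ∂cm) - ∫ t, (f t : ℂ) ∂cm)
      = Pool.Agent.FBM.hz f z - ca (fun t => (f t : ℂ)) 0 := by
    rw [ca_zero, mul_sub]
    rfl
  rw [h6, h7] at h5
  exact h5

end Pool.Agent.FBM
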