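import Pool.Agent.FBM.StmtD

/-!
# DIM: the imaginary part of the derivative along the circle
-/

open MeasureTheory Set Filter Topology
open scoped Real

namespace Pool.Agent.FBM

namespace DIM

/-- A periodic property which holds almost everywhere on one period holds almost everywhere. -/
theorem ae_of_cm {p : ℝ → Prop} (hp : Function.Periodic p (2 * π)) (h : ∀ᵐ t ∂cm, p t) :
    ∀ᵐ t, p t := by
  rw [ae_iff]
  have h0 : volume ({t | ¬ p t} ∩ Ioc (-π) π) = 0 := by
    have h1 : cm {t | ¬ p t} = 0 := ae_iff.1 h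
    rw [cm, Measure.restrict_apply' measurableSet_Ioc] at h1
    exact h1
  have h2 : {t | ¬ p t} ⊆ ⋃ n : ℤ, (fun t => t + n • (2 * π)) ⁻¹' ({t | ¬ p t} ∩ Ioc (-π) π) := by
    intro t ht
    obtain ⟨n, hn, -⟩ := existsUnique_add_zsmul_mem_Ioc Real.two_pi_pos t (-π)
    refine mem_iUnion.2 ⟨n, ?_, ?_⟩
    · intro hc
      apply ht
      rwa [hp.zsmul n t] at hc
    · have h3 : -π + 2 * π = π := by ring
      rw [h3] at hn
      exact hn
  refine measure_mono_null h2 (measure_iUnion_null fun n => ?_)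
  rw [measure_preimage_add_right]
  exact h0

theorem ep_norm {r t : ℝ} (hr : 0 ≤ r) : ‖ep r t‖ = r := by
  rw [ep, norm_mul, Complex.norm_exp_ofReal_mul_I, mul_one, Complex.norm_real, Real.norm_eq_abs,
    abs_of_nonneg hr]

theorem ep_cont (r : ℝ) : Continuous (ep r) := by
  unfold ep
  fun_prop

theorem integrable_of_cont {E : Type} [NormedAddCommGroup E] {g : ℝ → E} (hg : Continuous g) :
    Integrable g cm := by
  have h := hg.integrableOn_Ioc (μ := volume) (a := -π) (b := π)
  exact h

end DIM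

/-- The imaginary part of the derivative along the circle. -/
theorem t_DIM (hDPK : Stmt_DPK) (hDHR : Stmt_DHR) (hDPL : Stmt_DPL) : Stmt_DIM := by
  intro u T f hB hTp hT hz'
  have hTc : Integrable (fun t => (T t : ℂ)) cm := hT.ofReal
  have hTcp : Function.Periodic (fun t => (T t : ℂ)) (2 * π) := fun t => by
    change ((T (t + 2 * π) : ℝ) : ℂ) = _
    rw [hTp t]
  have h1 := hDPL (fun t => (T t : ℂ)) hTcp hTc
  have h2 := hB.lim
  have h3 := h2.add h1
  rw [add_zero] at h3
  -- the derivative inside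
  have hd : ∀ z : ℂ, ‖z‖ < 1 → deriv (Fx u) z = deriv (hz u) z := by
    intro z hz1
    apply Filter.EventuallyEq.deriv_eq
    have hm : Metric.ball (0 : ℂ) 1 ∈ 𝓝 z :=
      Metric.isOpen_ball.mem_nhds (by rwa [mem_ball_zero_iff])
    filter_upwards [hm] with w hw
    exact hB.eq w hw
  have hdc : ContinuousOn (deriv (Fx u)) (Metric.ball 0 1) :=
    (hB.diff.deriv Metric.isOpen_ball).continuousOn
  have hint : Integrable (fun t => (f t).im - T t) cm := by
    have h4 : Integrable (fun t => (f t).im) cm := hB.int.im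
    exact h4.sub hT
  have key : ∀ r : ℝ, 0 ≤ r → r < 1 → ∫ t, |(f t).im - T t| ∂cm ≤
      (∫ t, ‖Complex.I * ep r t * deriv (Fx u) (ep r t) - f t‖ ∂cm) +
        ∫ t, ‖po (fun t => (T t : ℂ)) (ep r t) - (T t : ℂ)‖ ∂cm := by
    intro r hr0 hr1
    have hn : ∀ t, ‖ep r t‖ < 1 := fun t => by rw [DIM.ep_norm hr0]; exact hr1
    have hGc : Continuous (fun t => Complex.I * ep r t * deriv (Fx u) (ep r t)) := by
      have h5 : Continuous (fun t => deriv (Fx u) (ep r t)) :=
        hdc.comp_continuous (DIM.ep_cont r) fun t => by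
          rw [mem_ball_zero_iff]
          exact hn t
      exact (continuous_const.mul (DIM.ep_cont r)).mul h5
    have hG : ∀ t, Complex.I * ep r t * deriv (Fx u) (ep r t) = Complex.I * hz T (ep r t) := by
      intro t
      rw [hd _ (hn t), mul_assoc, hz' _ (hn t)]
    have hpo : ∀ t, po (fun t => (T t : ℂ)) (ep r t) = (((hz T (ep r t)).re : ℝ) : ℂ) := fun t =>
      (hDHR T hT _ (hn t)).symm
    have hre : ∀ t, (hz T (ep r t)).re = (Complex.I * ep r t * deriv (Fx u) (ep r t)).im := by
      intro t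
      rw [hG t]
      simp
    have hI1 : Integrable (fun t => ‖Complex.I * ep r t * deriv (Fx u) (ep r t) - f t‖) cm :=
      ((DIM.integrable_of_cont hGc).sub hB.int).norm
    have hI2 : Integrable (fun t => ‖po (fun t => (T t : ℂ)) (ep r t) - (T t : ℂ)‖) cm := by
      have h6 : (fun t => po (fun t => (T t : ℂ)) (ep r t)) =
          fun t => (((Complex.I * ep r t * deriv (Fx u) (ep r t)).im : ℝ) : ℂ) := by
        funext t
        rw [hpo t, hre t]
      have h7 : Continuous (fun t => po (fun t => (T t : ℂ)) (ep r t)) := by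
        rw [h6]
        exact Complex.continuous_ofReal.comp (Complex.continuous_im.comp hGc)
      exact ((DIM.integrable_of_cont h7).sub hTc).norm
    rw [← integral_add hI1 hI2]
    refine integral_mono hint.abs (hI1.add hI2) fun t => ?_
    change |(f t).im - T t| ≤ ‖Complex.I * ep r t * deriv (Fx u) (ep r t) - f t‖ +
      ‖po (fun t => (T t : ℂ)) (ep r t) - (T t : ℂ)‖
    have h8 : |(hz T (ep r t)).re - (f t).im| ≤
        ‖Complex.I * ep r t * deriv (Fx u) (ep r t) - f t‖ := by
      rw [hre t, ← Complex.sub_im]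
      exact Complex.abs_im_le_norm _
    have h9 : |(hz T (ep r t)).re - T t| =
        ‖po (fun t => (T t : ℂ)) (ep r t) - (T t : ℂ)‖ := by
      rw [hpo t, ← Complex.ofReal_sub, Complex.norm_real, Real.norm_eq_abs]
    rw [← h9]
    refine le_trans ?_ (add_le_add h8 le_rfl)
    have h10 : (f t).im - T t = -((hz T (ep r t)).re - (f t).im) + ((hz T (ep r t)).re - T t) := by
      ring
    rw [h10]
    refine (abs_add_le _ _).trans ?_
    rw [abs_neg]
  have h11 : ∫ t, |(f t).im - T t| ∂cm ≤ 0 := by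
    refine ge_of_tendsto h3 ?_
    have h12 : Ioo (0 : ℝ) 1 ∈ 𝓝[<] (1 : ℝ) := Ioo_mem_nhdsLT (by norm_num)
    filter_upwards [h12] with r hr
    exact key r hr.1.le hr.2
  have h13 : ∫ t, |(f t).im - T t| ∂cm = 0 :=
    le_antisymm h11 (integral_nonneg fun t => abs_nonneg _)
  have h14 := (integral_eq_zero_iff_of_nonneg (fun t => abs_nonneg _) hint.abs).1 h13
  have h15 : ∀ᵐ t ∂cm, (f t).im = T t := by
    filter_upwards [h14] with t ht
    have h16 : |(f t).im - T t| = 0 := ht
    exact sub_eq_zero.1 (abs_eq_zero.1 h16)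
  refine DIM.ae_of_cm (fun t => ?_) h15
  rw [hB.per t, hTp t]

end Pool.Agent.FBM
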