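import Pool.Agent.FBM.StmtD

/-!
# DLE: the boundary function is dominated by the integral of `τ`
-/

open MeasureTheory Set Filter Topology
open scoped Real

namespace Pool.Agent.FBM

namespace DLE

theorem norm_ep (r t : ℝ) : ‖ep r t‖ = |r| := by
  rw [ep, norm_mul, Complex.norm_exp_ofReal_mul_I, mul_one, Complex.norm_real, Real.norm_eq_abs]

theorem ep_mem {r : ℝ} (h0 : 0 ≤ r) (h1 : r < 1) (t : ℝ) : ep r t ∈ Metric.ball (0 : ℂ) 1 := by
  rw [mem_ball_zero_iff, norm_ep, abs_of_nonneg h0]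
  exact h1

theorem cont_ep (r : ℝ) : Continuous (ep r) := by
  unfold ep
  fun_prop

theorem hasDerivAt_ep (r t : ℝ) : HasDerivAt (ep r) (Complex.I * ep r t) t := by
  have h1 : HasDerivAt (fun v : ℝ => (v : ℂ) * Complex.I) Complex.I t := by
    have := (Complex.ofRealCLM.hasDerivAt (x := t)).mul_const Complex.I
    simpa using this
  have h2 := (h1.cexp).const_mul (r : ℂ)
  have h3 : (r : ℂ) * (Complex.exp (t * Complex.I) * Complex.I) = Complex.I * ep r t := by
    rw [ep]
    ring
  rw [← h3]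
  exact h2

theorem ep_per (r t : ℝ) : ep r (t + 2 * π) = ep r t := by
  rw [ep, ep]
  congr 1
  have : ((t + 2 * π : ℝ) : ℂ) * Complex.I = (t : ℂ) * Complex.I + 2 * π * Complex.I := by
    push_cast
    ring
  rw [this, Complex.exp_add, Complex.exp_two_pi_mul_I, mul_one]

/-- The integral over one period. -/
theorem integral_cm (f : ℝ → ℝ) : ∫ t, f t ∂cm = ∫ t in (-π)..(-π + 2 * π), f t := by
  have h : (-π + 2 * π) = π := by ring
  rw [h, intervalIntegral.integral_of_le (by linarith [Real.pi_pos])]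
  rfl

theorem ii_of_int {f : ℝ → ℝ} (hp : Function.Periodic f (2 * π)) (hf : Integrable f cm) (a b : ℝ) :
    IntervalIntegrable f volume a b := by
  have h : (-π + 2 * π) = π := by ring
  refine hp.intervalIntegrable (t := -π) (by positivity) ?_ a b
  rw [h, intervalIntegrable_iff_integrableOn_Ioc_of_le (by linarith [Real.pi_pos])]
  exact hf

theorem bound (hDHD : Stmt_DHD) {u τ : ℝ → ℝ} {C : ℝ} (h : PB u τ C) {r : ℝ} (h0 : 0 ≤ r)
    (h1 : r < 1) {s t : ℝ} (hst : s ≤ t) :
    ‖hz u (ep r t) - hz u (ep r s)‖ ≤ C * ∫ v in s..t, (hz τ (ep r v)).re := by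
  have hui : Integrable u cm := by
    obtain ⟨B, hB⟩ := h.bdd
    have : IsFiniteMeasure cm := by
      unfold cm
      infer_instance
    exact Integrable.of_bound h.meas.aestronglyMeasurable B (ae_of_all _ fun t => by
      rw [Real.norm_eq_abs]
      exact hB t)
  have hF := hDHD u hui
  have hA := hF.analyticOnNhd Metric.isOpen_ball
  have hτ := (hDHD τ h.int).continuousOn
  have hcd : Continuous fun v => deriv (hz u) (ep r v) :=
    (hA.deriv.continuousOn).comp_continuous (cont_ep r) fun v => ep_mem h0 h1 v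
  have hcτ : Continuous fun v => hz τ (ep r v) :=
    hτ.comp_continuous (cont_ep r) fun v => ep_mem h0 h1 v
  have hder : ∀ v : ℝ, HasDerivAt (fun v : ℝ => hz u (ep r v))
      (deriv (hz u) (ep r v) * (Complex.I * ep r v)) v := by
    intro v
    have h2 : HasDerivAt (hz u) (deriv (hz u) (ep r v)) (ep r v) :=
      ((hF.differentiableAt (Metric.isOpen_ball.mem_nhds (ep_mem h0 h1 v)))).hasDerivAt
    exact h2.comp v (hasDerivAt_ep r v)
  have hcont : Continuous fun v => deriv (hz u) (ep r v) * (Complex.I * ep r v) :=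
    hcd.mul (continuous_const.mul (cont_ep r))
  rw [← intervalIntegral.integral_eq_sub_of_hasDerivAt (fun v _ => hder v)
    (hcont.intervalIntegrable s t)]
  rw [← intervalIntegral.integral_const_mul]
  refine intervalIntegral.norm_integral_le_of_norm_le hst (ae_of_all _ fun v _ => ?_) ?_
  · have h3 := h.le (ep r v) (by
      have := ep_mem h0 h1 v
      rwa [mem_ball_zero_iff] at this)
    have h4 : ‖deriv (hz u) (ep r v) * (Complex.I * ep r v)‖ =
        ‖ep r v * deriv (hz u) (ep r v)‖ := by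
      rw [norm_mul, norm_mul, norm_mul, Complex.norm_I, one_mul, mul_comm]
    rw [h4]
    exact h3
  · exact (continuous_const.mul (Complex.continuous_re.comp hcτ)).intervalIntegrable s t

end DLE

theorem t_DLE (hDHD : Stmt_DHD) (hDPL : Stmt_DPL) (hDHR : Stmt_DHR) : Stmt_DLE := by
  intro u τ C h g hg s t hst
  have hτ := (hDHD τ h.int).continuousOn
  have hτper : Function.Periodic (fun t => (τ t : ℂ)) (2 * π) := fun t => by
    change ((τ (t + 2 * π) : ℝ) : ℂ) = τ t
    rw [h.per' t]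
  have hlim := hDPL (fun t => (τ t : ℂ)) hτper h.int.ofReal
  obtain ⟨n, hn⟩ := exists_nat_ge ((t - s) / (2 * π))
  have h2π : 0 < 2 * π := by positivity
  have htn : t ≤ s + n • (2 * π) := by
    rw [div_le_iff₀ h2π] at hn
    rw [nsmul_eq_mul]
    linarith
  -- the comparison of the integrals
  have key : ∀ r : ℝ, 0 ≤ r → r < 1 →
      |(∫ v in s..t, (hz τ (ep r v)).re) - ∫ v in s..t, τ v| ≤
        n * ∫ v, ‖po (fun t => (τ t : ℂ)) (ep r v) - (τ v : ℂ)‖ ∂cm := by
    intro r h0 h1
    have hcτ : Continuous fun v => (hz τ (ep r v)).re :=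
      Complex.continuous_re.comp (hτ.comp_continuous (DLE.cont_ep r) fun v => DLE.ep_mem h0 h1 v)
    set k : ℝ → ℝ := fun v => |(hz τ (ep r v)).re - τ v| with hk
    have hkper : Function.Periodic k (2 * π) := fun v => by
      rw [hk]
      change |(hz τ (ep r (v + 2 * π))).re - τ (v + 2 * π)| = _
      rw [DLE.ep_per, h.per' v]
    have hτi : ∀ a b, IntervalIntegrable τ volume a b := DLE.ii_of_int h.per' h.int
    have hki : ∀ a b, IntervalIntegrable k volume a b := fun a b =>
      ((hcτ.intervalIntegrable a b).sub (hτi a b)).abs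
    have hk0 : ∀ v, 0 ≤ k v := fun v => abs_nonneg _
    have e1 : (∫ v in s..t, (hz τ (ep r v)).re) - ∫ v in s..t, τ v =
        ∫ v in s..t, ((hz τ (ep r v)).re - τ v) :=
      (intervalIntegral.integral_sub (hcτ.intervalIntegrable s t) (hτi s t)).symm
    rw [e1]
    have e2 : |∫ v in s..t, ((hz τ (ep r v)).re - τ v)| ≤ ∫ v in s..t, k v :=
      intervalIntegral.abs_integral_le_integral_abs hst
    have e3 : ∫ v in s..t, k v ≤ ∫ v in s..(s + n • (2 * π)), k v := by
      refine intervalIntegral.integral_mono_interval le_rfl hst htn ?_ (hki _ _)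
      exact ae_of_all _ hk0
    have e4 : ∫ v in s..(s + n • (2 * π)), k v = n * ∫ v, k v ∂cm := by
      have h5 := hkper.intervalIntegral_add_zsmul_eq (n : ℤ) s hki
      rw [natCast_zsmul, natCast_zsmul, hkper.intervalIntegral_add_eq s (-π)] at h5
      rw [h5, DLE.integral_cm, nsmul_eq_mul]
    have e5 : ∀ v, k v = ‖po (fun t => (τ t : ℂ)) (ep r v) - (τ v : ℂ)‖ := by
      intro v
      have hz1 : ‖ep r v‖ < 1 := by
        have := DLE.ep_mem h0 h1 v
        rwa [mem_ball_zero_iff] at this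
      rw [← hDHR τ h.int (ep r v) hz1, ← Complex.ofReal_sub, Complex.norm_real, Real.norm_eq_abs]
    have e6 : ∫ v, k v ∂cm = ∫ v, ‖po (fun t => (τ t : ℂ)) (ep r v) - (τ v : ℂ)‖ ∂cm :=
      integral_congr_ae (ae_of_all _ e5)
    rw [← e6, ← e4]
    exact e2.trans e3
  -- the limit
  have hev : ∀ᶠ r : ℝ in 𝓝[<] 1, 0 ≤ r ∧ r < 1 := by
    have h1 : ∀ᶠ r : ℝ in 𝓝[<] 1, r < 1 := eventually_mem_nhdsWithin
    have h2 : ∀ᶠ r : ℝ in 𝓝[<] 1, 0 < r :=
      mem_nhdsWithin_of_mem_nhds (lt_mem_nhds one_pos)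
    filter_upwards [h1, h2] with r ha hb
    exact ⟨hb.le, ha⟩
  have hI : Tendsto (fun r : ℝ => ∫ v in s..t, (hz τ (ep r v)).re) (𝓝[<] 1)
      (𝓝 (∫ v in s..t, τ v)) := by
    rw [tendsto_iff_norm_sub_tendsto_zero]
    refine squeeze_zero' (Eventually.of_forall fun r => norm_nonneg _) ?_
      (by simpa using hlim.const_mul (n : ℝ))
    filter_upwards [hev] with r hr
    rw [Real.norm_eq_abs]
    exact key r hr.1 hr.2
  have hR : Tendsto (fun r : ℝ => C * ∫ v in s..t, (hz τ (ep r v)).re) (𝓝[<] 1)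
      (𝓝 (C * ∫ v in s..t, τ v)) := hI.const_mul C
  have hL : Tendsto (fun r : ℝ => ‖hz u (ep r t) - hz u (ep r s)‖) (𝓝[<] 1) (𝓝 ‖g t - g s‖) :=
    ((hg t).sub (hg s)).norm
  refine le_of_tendsto_of_tendsto hL hR ?_
  filter_upwards [hev] with r hr
  exact DLE.bound hDHD h hr.1 hr.2 hst

end Pool.Agent.FBM
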