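import Pool.Agent.FBM.StmtD

/-!
# DLM: the derivative along the circle is a Poisson integral
-/

open MeasureTheory Set Filter Topology
open scoped Real

namespace Pool.Agent.FBM

namespace DLM

lemma norm_ep {r : ℝ} (hr : 0 ≤ r) (t : ℝ) : ‖ep r t‖ = r := by
  rw [ep, norm_mul, Complex.norm_exp_ofReal_mul_I, mul_one, Complex.norm_real,
    Real.norm_of_nonneg hr]

lemma ep_per (r t : ℝ) : ep r (t + 2 * π) = ep r t := by
  unfold ep
  congr 1
  have : (((t + 2 * π : ℝ) : ℂ)) * Complex.I = (t : ℂ) * Complex.I + 2 * π * Complex.I := by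
    push_cast; ring
  rw [this, Complex.exp_periodic]

lemma ep_mem {r : ℝ} (h0 : 0 ≤ r) (h1 : r < 1) (t : ℝ) : ep r t ∈ Metric.ball (0 : ℂ) 1 := by
  rw [mem_ball_zero_iff, norm_ep h0]
  exact h1

lemma ep_memc {r : ℝ} (h0 : 0 ≤ r) (h1 : r ≤ 1) (t : ℝ) :
    ep r t ∈ Metric.closedBall (0 : ℂ) 1 := by
  rw [mem_closedBall_zero_iff, norm_ep h0]
  exact h1

lemma cont_ep (r : ℝ) : Continuous (ep r) := by
  unfold ep
  fun_prop

lemma cont_ep' (t : ℝ) : Continuous (fun r : ℝ => ep r t) := by
  unfold ep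
  fun_prop

lemma hasDerivAt_ep (r t : ℝ) : HasDerivAt (ep r) (Complex.I * ep r t) t := by
  have h1 : HasDerivAt (fun v : ℝ => (v : ℂ) * Complex.I) Complex.I t := by
    have := (Complex.ofRealCLM.hasDerivAt (x := t)).mul_const Complex.I
    simpa using this
  have h2 := (h1.cexp).const_mul (r : ℂ)
  have h3 : (r : ℂ) * (Complex.exp (t * Complex.I) * Complex.I) = Complex.I * ep r t := by
    rw [ep]
    ring
  rw [← h3]
  exact h2

lemma cm_finite : IsFiniteMeasure cm := by
  unfold cm; infer_instance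

/-- A periodic function integrable on one period is integrable on all intervals. -/
lemma ivi {f : ℝ → ℂ} (hp : Function.Periodic f (2 * π)) (hi : Integrable f cm) (a b : ℝ) :
    IntervalIntegrable f volume a b := by
  have h1 : IntervalIntegrable f volume (-π) (-π + 2 * π) := by
    rw [show -π + 2 * π = π by ring]
    rw [intervalIntegrable_iff_integrableOn_Ioc_of_le (by linarith [Real.pi_pos])]
    exact hi
  exact hp.intervalIntegrable Real.two_pi_pos.ne' h1 a b

lemma aesm {f : ℝ → ℂ} (hp : Function.Periodic f (2 * π)) (hi : Integrable f cm) :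
    AEStronglyMeasurable f volume := by
  have h : LocallyIntegrable f volume := by
    intro x
    refine ⟨Ioc (x - 1) (x + 1), Ioc_mem_nhds (by linarith) (by linarith), ?_⟩
    have := ivi hp hi (x - 1) (x + 1)
    rwa [intervalIntegrable_iff_integrableOn_Ioc_of_le (by linarith)] at this
  exact h.aestronglyMeasurable

/-- Values inside from the values on the circle. -/
lemma bdry (hDSG : Stmt_DSG) {F : ℂ → ℂ} (hFc : ContinuousOn F (Metric.closedBall 0 1))
    (hFd : DifferentiableOn ℂ F (Metric.ball 0 1)) (hk : ∀ z : ℂ, ‖z‖ < 1 → Continuous (pk z))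
    {r : ℝ} (h0 : 0 ≤ r) (h1 : r < 1) (θ : ℝ) :
    F (ep r θ) = po (fun t => F (ep 1 t)) (ep r θ) := by
  have := cm_finite
  have hz : ‖ep r θ‖ < 1 := by rw [norm_ep h0]; exact h1
  have kc := hk _ hz
  obtain ⟨M, hM⟩ := (isCompact_closedBall (0 : ℂ) 1).exists_bound_of_continuousOn hFc
  have hev : ∀ᶠ r' : ℝ in 𝓝[<] 1, 0 ≤ r' ∧ r' < 1 := by
    have a2 : ∀ᶠ r : ℝ in 𝓝[<] 1, 0 < r :=
      mem_nhdsWithin_of_mem_nhds (lt_mem_nhds one_pos)
    have a3 : ∀ᶠ r : ℝ in 𝓝[<] 1, r < 1 := self_mem_nhdsWithin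
    filter_upwards [a2, a3] with r b2 b3 using ⟨b2.le, b3⟩
  -- the left side
  have hL : Tendsto (fun r' : ℝ => F (ep (r * r') θ)) (𝓝[<] 1) (𝓝 (F (ep r θ))) := by
    have c1 : ContinuousAt F (ep r θ) :=
      (hFd.differentiableAt (Metric.isOpen_ball.mem_nhds (ep_mem h0 h1 θ))).continuousAt
    have c2 : Tendsto (fun r' : ℝ => ep (r * r') θ) (𝓝[<] 1) (𝓝 (ep r θ)) := by
      have c3 : Continuous (fun r' : ℝ => ep (r * r') θ) :=
        (cont_ep' θ).comp (continuous_const.mul continuous_id)
      have c4 := c3.tendsto 1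
      rw [mul_one] at c4
      exact c4.mono_left nhdsWithin_le_nhds
    exact c1.tendsto.comp c2
  -- the right side
  have hR : Tendsto (fun r' : ℝ => po (fun t => F (ep r' t)) (ep r θ)) (𝓝[<] 1)
      (𝓝 (po (fun t => F (ep 1 t)) (ep r θ))) := by
    unfold po
    refine Tendsto.const_mul _ ?_
    refine tendsto_integral_filter_of_dominated_convergence (μ := cm)
      (fun t => pk (ep r θ) t * M + ‖pk (ep r θ) t‖ * |M|) ?_ ?_ ?_ ?_
    · filter_upwards [hev] with r' hr'
      have d1 : Continuous fun t => F (ep r' t) :=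
        hFd.continuousOn.comp_continuous (cont_ep r') fun t => ep_mem hr'.1 hr'.2 t
      exact ((Complex.continuous_ofReal.comp kc).mul d1).aestronglyMeasurable
    · filter_upwards [hev] with r' hr'
      refine Eventually.of_forall fun t => ?_
      rw [norm_mul, Complex.norm_real]
      have e1 := hM _ (ep_memc hr'.1 hr'.2.le t)
      have e2 : 0 ≤ pk (ep r θ) t := by
        unfold pk
        rw [norm_ep h0]
        apply div_nonneg
        · nlinarith
        · positivity
      have e3 : ‖pk (ep r θ) t‖ = pk (ep r θ) t := Real.norm_of_nonneg e2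
      have e4 : 0 ≤ ‖F (ep r' t)‖ := norm_nonneg _
      rw [e3]
      have e5 := mul_le_mul_of_nonneg_left e1 e2
      have e6 : 0 ≤ pk (ep r θ) t * |M| := mul_nonneg e2 (abs_nonneg _)
      linarith
    · have e1 : Continuous fun t => pk (ep r θ) t * M + ‖pk (ep r θ) t‖ * |M| := by fun_prop
      exact e1.integrableOn_Ioc
    · refine Eventually.of_forall fun t => ?_
      refine Tendsto.const_mul _ ?_
      have c1 : ContinuousWithinAt F (Metric.closedBall 0 1) (ep 1 t) :=
        hFc _ (ep_memc zero_le_one le_rfl t)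
      have c2 : Tendsto (fun r' : ℝ => ep r' t) (𝓝[<] 1)
          (𝓝[Metric.closedBall 0 1] (ep 1 t)) := by
        rw [tendsto_nhdsWithin_iff]
        refine ⟨((cont_ep' t).tendsto 1).mono_left nhdsWithin_le_nhds, ?_⟩
        filter_upwards [hev] with r' hr' using ep_memc hr'.1 hr'.2.le t
      exact c1.tendsto.comp c2
  refine tendsto_nhds_unique_of_eventuallyEq hL hR ?_
  filter_upwards [hev] with r' hr' using hDSG F hFd r r' θ h0 h1 hr'.1 hr'.2

/-- The product is integrable. -/
lemma prod_int {f : ℝ → ℂ} (hp : Function.Periodic f (2 * π)) (hi : Integrable f cm)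
    {k : ℝ → ℝ} (kc : Continuous k) {a b : ℝ} (hle : a ≤ b) :
    Integrable (fun p : ℝ × ℝ => (k p.1 : ℂ) * f (p.1 + p.2))
      (cm.prod (volume.restrict (Ioc a b))) := by
  have hmeas : AEStronglyMeasurable (fun p : ℝ × ℝ => (k p.1 : ℂ) * f (p.1 + p.2))
      (cm.prod (volume.restrict (Ioc a b))) := by
    have h1 : AEStronglyMeasurable (fun p : ℝ × ℝ => f (p.1 + p.2))
        ((volume : Measure ℝ).prod volume) := by
      have h2 := (aesm hp hi).comp_snd (μ := (volume : Measure ℝ))
      exact h2.comp_measurePreserving (measurePreserving_prod_add volume volume)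
    have h3 : AEStronglyMeasurable (fun p : ℝ × ℝ => (k p.1 : ℂ) * f (p.1 + p.2))
        ((volume : Measure ℝ).prod volume) :=
      ((Complex.continuous_ofReal.comp kc).comp continuous_fst).aestronglyMeasurable.mul h1
    refine h3.mono_measure ?_
    unfold cm
    rw [Measure.prod_restrict]
    exact Measure.restrict_le_self
  have hni : Integrable (fun t => ‖f t‖) cm := hi.norm
  have hnp : Function.Periodic (fun t => ‖f t‖) (2 * π) := fun t => by
    show ‖f (t + 2 * π)‖ = ‖f t‖
    rw [hp t]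
  have hiv : ∀ a b, IntervalIntegrable (fun t => ‖f t‖) volume a b := fun a b =>
    (ivi hp hi a b).norm
  have : SFinite cm := by
    unfold cm
    infer_instance
  have hG : Continuous fun s : ℝ => ∫ t in a..b, ‖f (s + t)‖ := by
    have h1 : (fun s : ℝ => ∫ t in a..b, ‖f (s + t)‖) =
        fun s : ℝ => (∫ t in (0 : ℝ)..(s + b), ‖f t‖) - ∫ t in (0 : ℝ)..(s + a), ‖f t‖ := by
      funext s
      rw [intervalIntegral.integral_comp_add_left (fun t => ‖f t‖) s,
        intervalIntegral.integral_interval_sub_left (hiv _ _) (hiv _ _)]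
    rw [h1]
    have h2 := intervalIntegral.continuous_primitive hiv 0
    exact (h2.comp (continuous_id.add continuous_const)).sub
      (h2.comp (continuous_id.add continuous_const))
  rw [integrable_prod_iff hmeas]
  constructor
  · refine Eventually.of_forall fun s => ?_
    show Integrable (fun t => (k s : ℂ) * f (s + t)) (volume.restrict (Ioc a b))
    refine Integrable.const_mul (f := fun t => f (s + t)) ?_ _
    have h1 : IntervalIntegrable (fun t => f (s + t)) volume a b := by
      have h5 : IntervalIntegrable (fun t => f (s + t)) volume (s + a - s) (s + b - s) :=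
        IntervalIntegrable.comp_add_left (f := f) (ivi hp hi (s + a) (s + b)) s
          (by simp)
      simpa using h5
    rwa [intervalIntegrable_iff_integrableOn_Ioc_of_le hle] at h1
  · have h1 : (fun s : ℝ => ∫ t, ‖(k s : ℂ) * f (s + t)‖ ∂(volume.restrict (Ioc a b))) =
        fun s => ‖k s‖ * ∫ t in a..b, ‖f (s + t)‖ := by
      funext s
      rw [intervalIntegral.integral_of_le hle, ← integral_const_mul]
      refine integral_congr_ae (Eventually.of_forall fun t => ?_)
      show ‖(k s : ℂ) * f (s + t)‖ = ‖k s‖ * ‖f (s + t)‖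
      rw [norm_mul, Complex.norm_real]
    rw [h1]
    exact (kc.norm.mul hG).integrableOn_Ioc

/-- Differences of the values on a circle are integrals of the Poisson integral. -/
lemma diff_eq (hDPT : Stmt_DPT) {F : ℂ → ℂ} {f : ℝ → ℂ} (hp : Function.Periodic f (2 * π))
    (hi : Integrable f cm)
    (hftc : ∀ s t : ℝ, F (ep 1 t) - F (ep 1 s) = ∫ v in s..t, f v)
    (hgc : Continuous fun t => F (ep 1 t))
    (hk : ∀ z : ℂ, ‖z‖ < 1 → Continuous (pk z))
    {r : ℝ} (h0 : 0 ≤ r) (h1 : r < 1)
    (hb : ∀ θ, F (ep r θ) = po (fun t => F (ep 1 t)) (ep r θ)) {a b : ℝ} (hle : a ≤ b) :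
    F (ep r b) - F (ep r a) = ∫ v in a..b, po f (ep r v) := by
  have := cm_finite
  have hrn : ‖(r : ℂ)‖ < 1 := by
    rw [Complex.norm_real, Real.norm_eq_abs, abs_of_nonneg h0]
    exact h1
  have kc := hk (r : ℂ) hrn
  have hgp : Function.Periodic (fun t => F (ep 1 t)) (2 * π) := fun t => by
    show F (ep 1 (t + 2 * π)) = F (ep 1 t)
    rw [ep_per]
  have hint := prod_int hp hi kc hle
  have hswap := integral_integral_swap (f := fun s t => (pk (r : ℂ) s : ℂ) * f (s + t)) hint
  have e1 : ∫ v in a..b, po f (ep r v) =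
      (1 / (2 * π) : ℂ) * ∫ s, (pk (r : ℂ) s : ℂ) * (F (ep 1 (b + s)) - F (ep 1 (a + s))) ∂cm := by
    rw [intervalIntegral.integral_of_le hle]
    have e2 : ∀ t, po f (ep r t) = (1 / (2 * π) : ℂ) * ∫ s, (pk (r : ℂ) s : ℂ) * f (s + t) ∂cm := by
      intro t
      rw [hDPT f hp r t h0 h1]
      congr 1
      refine integral_congr_ae (Eventually.of_forall fun s => ?_)
      show (pk (r : ℂ) s : ℂ) * f (t + s) = (pk (r : ℂ) s : ℂ) * f (s + t)
      rw [add_comm t s]
    simp only [e2]
    rw [integral_const_mul, ← hswap]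
    congr 1
    refine integral_congr_ae (μ := cm) (Eventually.of_forall fun s => ?_)
    show ∫ t in Ioc a b, (pk (r : ℂ) s : ℂ) * f (s + t) =
      (pk (r : ℂ) s : ℂ) * (F (ep 1 (b + s)) - F (ep 1 (a + s)))
    rw [integral_const_mul, hftc, ← intervalIntegral.integral_of_le hle,
      intervalIntegral.integral_comp_add_left (fun t => f t) s, add_comm s a, add_comm s b]
  rw [e1, hb b, hb a, hDPT _ hgp r b h0 h1, hDPT _ hgp r a h0 h1, ← mul_sub,
    ← integral_sub]
  · congr 1
    refine integral_congr_ae (μ := cm) (Eventually.of_forall fun s => ?_)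
    show (pk (r : ℂ) s : ℂ) * F (ep 1 (b + s)) - (pk (r : ℂ) s : ℂ) * F (ep 1 (a + s)) =
      (pk (r : ℂ) s : ℂ) * (F (ep 1 (b + s)) - F (ep 1 (a + s)))
    ring
  · have c1 : Continuous fun s => (pk (r : ℂ) s : ℂ) * F (ep 1 (b + s)) :=
      (Complex.continuous_ofReal.comp kc).mul (hgc.comp (continuous_const.add continuous_id))
    exact c1.integrableOn_Ioc
  · have c1 : Continuous fun s => (pk (r : ℂ) s : ℂ) * F (ep 1 (a + s)) :=
      (Complex.continuous_ofReal.comp kc).mul (hgc.comp (continuous_const.add continuous_id))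
    exact c1.integrableOn_Ioc

lemma dist_low {r : ℝ} (hr : 0 ≤ r) (θ t : ℝ) : 1 - r ≤ ‖ep 1 t - ep r θ‖ := by
  have h := norm_sub_norm_le (ep 1 t) (ep r θ)
  rw [norm_ep zero_le_one, norm_ep hr] at h
  exact h

/-- The Poisson integral is continuous on circles. -/
lemma po_cont {f : ℝ → ℂ} (hi : Integrable f cm) {r : ℝ} (h0 : 0 ≤ r) (h1 : r < 1) :
    Continuous fun v => po f (ep r v) := by
  have h2 : 0 < 1 - r := by linarith
  have e : ∀ v t, pk (ep r v) t = (1 - r ^ 2) / ‖ep 1 t - ep r v‖ ^ 2 := by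
    intro v t
    unfold pk
    rw [norm_ep h0]
  have hpos : ∀ v t, 0 < ‖ep 1 t - ep r v‖ := fun v t => lt_of_lt_of_le h2 (dist_low h0 v t)
  have hc1 : ∀ t, Continuous fun v => pk (ep r v) t := by
    intro t
    have e' : (fun v => pk (ep r v) t) = fun v => (1 - r ^ 2) / ‖ep 1 t - ep r v‖ ^ 2 :=
      funext fun v => e v t
    rw [e']
    refine Continuous.div continuous_const
      ((continuous_const.sub (cont_ep r)).norm.pow 2) fun v => ?_
    have := hpos v t
    positivity
  have hc2 : ∀ v, Continuous fun t => pk (ep r v) t := by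
    intro v
    have e' : (fun t => pk (ep r v) t) = fun t => (1 - r ^ 2) / ‖ep 1 t - ep r v‖ ^ 2 :=
      funext fun t => e v t
    rw [e']
    refine Continuous.div continuous_const
      (((cont_ep 1).sub continuous_const).norm.pow 2) fun t => ?_
    have := hpos v t
    positivity
  unfold po
  refine continuous_const.mul ?_
  refine continuous_of_dominated (μ := cm)
    (bound := fun t => (1 - r ^ 2) / (1 - r) ^ 2 * ‖f t‖) ?_ ?_ ?_ ?_
  · intro v
    exact ((Complex.continuous_ofReal.comp (hc2 v)).aestronglyMeasurable).mul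
      hi.aestronglyMeasurable
  · intro v
    refine Eventually.of_forall fun t => ?_
    rw [norm_mul, Complex.norm_real]
    refine mul_le_mul_of_nonneg_right ?_ (norm_nonneg _)
    have h3 : 0 ≤ pk (ep r v) t := by
      rw [e]
      apply div_nonneg
      · nlinarith
      · positivity
    rw [Real.norm_of_nonneg h3, e]
    apply div_le_div_of_nonneg_left
    · nlinarith
    · positivity
    · exact pow_le_pow_left₀ h2.le (dist_low h0 v t) 2
  · exact hi.norm.const_mul _
  · refine Eventually.of_forall fun t => ?_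
    exact (Complex.continuous_ofReal.comp (hc1 t)).mul continuous_const

end DLM

open DLM in
/-- DLM -/
theorem t_DLM (hDPK : Stmt_DPK) (hDPT : Stmt_DPT) (hDPL : Stmt_DPL) (hDSG : Stmt_DSG) :
    Stmt_DLM := by
  intro F f hFc hFd hp hi hftc
  have hk : ∀ z : ℂ, ‖z‖ < 1 → Continuous (pk z) := fun z hz => (hDPK z hz).1
  have hgc : Continuous fun t => F (ep 1 t) :=
    hFc.comp_continuous (cont_ep 1) fun t => ep_memc zero_le_one le_rfl t
  have key : ∀ r t : ℝ, 0 ≤ r → r < 1 →
      Complex.I * ep r t * deriv F (ep r t) = po f (ep r t) := by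
    intro r t h0 h1
    have hb := fun θ => bdry hDSG hFc hFd hk h0 h1 θ
    have hd1 : HasDerivAt (fun v : ℝ => F (ep r v))
        (deriv F (ep r t) * (Complex.I * ep r t)) t := by
      have h2 : HasDerivAt F (deriv F (ep r t)) (ep r t) :=
        (hFd.differentiableAt (Metric.isOpen_ball.mem_nhds (ep_mem h0 h1 t))).hasDerivAt
      exact h2.comp t (hasDerivAt_ep r t)
    have hc := po_cont hi h0 h1
    have hd2 : HasDerivAt (fun v : ℝ => (∫ x in (t - 1)..v, po f (ep r x)) + F (ep r (t - 1)))
        (po f (ep r t)) t :=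
      (intervalIntegral.integral_hasDerivAt_right (hc.intervalIntegrable _ _)
        (hc.stronglyMeasurableAtFilter _ _) hc.continuousAt).add_const _
    have hev : (fun v : ℝ => F (ep r v)) =ᶠ[𝓝 t]
        fun v : ℝ => (∫ x in (t - 1)..v, po f (ep r x)) + F (ep r (t - 1)) := by
      have hm : Ioi (t - 1) ∈ 𝓝 t := Ioi_mem_nhds (by linarith)
      filter_upwards [hm] with v hv
      have hle : t - 1 ≤ v := (mem_Ioi.1 hv).le
      rw [← diff_eq hDPT hp hi hftc hgc hk h0 h1 hb hle]
      ring
    have hd3 := hd2.congr_of_eventuallyEq hev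
    have hu := hd1.unique hd3
    rw [← hu]
    ring
  refine ⟨key, ?_⟩
  refine (hDPL f hp hi).congr' ?_
  have a2 : ∀ᶠ r : ℝ in 𝓝[<] 1, 0 < r :=
    mem_nhdsWithin_of_mem_nhds (lt_mem_nhds one_pos)
  have a3 : ∀ᶠ r : ℝ in 𝓝[<] 1, r < 1 := self_mem_nhdsWithin
  filter_upwards [a2, a3] with r b2 b3
  refine integral_congr_ae (μ := cm) (Eventually.of_forall fun t => ?_)
  show ‖po f (ep r t) - f t‖ = ‖Complex.I * ep r t * deriv F (ep r t) - f t‖
  rw [key r t b2.le b3]

end Pool.Agent.FBM
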