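import Pool.Agent.FBM.StmtD

/-!
# Module DPA: integrals of Poisson integrals over short intervals
-/

open MeasureTheory Set Filter Topology
open scoped Real

namespace Pool.Agent.FBM

namespace DPA

/-- A periodic function integrable on one period is integrable on all intervals. -/
lemma ivi {τ : ℝ → ℝ} (hp : Function.Periodic τ (2 * π)) (hi : Integrable τ cm) (a b : ℝ) :
    IntervalIntegrable τ volume a b := by
  have h1 : IntervalIntegrable τ volume (-π) (-π + 2 * π) := by
    rw [show -π + 2 * π = π by ring]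
    rw [intervalIntegrable_iff_integrableOn_Ioc_of_le (by linarith [Real.pi_pos])]
    exact hi
  exact hp.intervalIntegrable Real.two_pi_pos.ne' h1 a b

lemma aesm {τ : ℝ → ℝ} (hp : Function.Periodic τ (2 * π)) (hi : Integrable τ cm) :
    AEStronglyMeasurable τ volume := by
  have h : LocallyIntegrable τ volume := by
    intro x
    refine ⟨Ioc (x - 1) (x + 1), Ioc_mem_nhds (by linarith) (by linarith), ?_⟩
    have := ivi hp hi (x - 1) (x + 1)
    rwa [intervalIntegrable_iff_integrableOn_Ioc_of_le (by linarith)] at this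
  exact h.aestronglyMeasurable

/-- The real form of the average of translates. -/
lemma re_eq (hDHR : Stmt_DHR) (hDPT : Stmt_DPT) {τ : ℝ → ℝ}
    (hp : Function.Periodic τ (2 * π)) (hi : Integrable τ cm) {r : ℝ} (h0 : 0 ≤ r) (h1 : r < 1)
    (hn : ∀ t, ‖ep r t‖ < 1) (t : ℝ) :
    (hz τ (ep r t)).re = (1 / (2 * π)) * ∫ s, pk (r : ℂ) s * τ (t + s) ∂cm := by
  have e1 := hDHR τ hi (ep r t) (hn t)
  have e2 := hDPT (fun t => (τ t : ℂ)) (fun x => by
    show (τ (x + 2 * π) : ℂ) = (τ x : ℂ)
    rw [hp x]) r t h0 h1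
  have e3 : (((1 / (2 * π)) * ∫ s, pk (r : ℂ) s * τ (t + s) ∂cm : ℝ) : ℂ) =
      (1 / (2 * π) : ℂ) * ∫ s, (pk (r : ℂ) s : ℂ) * ((τ (t + s) : ℝ) : ℂ) ∂cm := by
    have h2 : ((∫ s, pk (r : ℂ) s * τ (t + s) ∂cm : ℝ) : ℂ) =
        ∫ s, ((pk (r : ℂ) s * τ (t + s) : ℝ) : ℂ) ∂cm := integral_complex_ofReal.symm
    rw [Complex.ofReal_mul, h2]
    congr 1
    · push_cast
      rfl
    · refine integral_congr_ae (Eventually.of_forall fun s => ?_)
      show ((pk (r : ℂ) s * τ (t + s) : ℝ) : ℂ) = _
      rw [Complex.ofReal_mul]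
  have e4 : (((hz τ (ep r t)).re : ℝ) : ℂ) =
      (((1 / (2 * π)) * ∫ s, pk (r : ℂ) s * τ (t + s) ∂cm : ℝ) : ℂ) := by
    rw [e1, e2, e3]
  exact_mod_cast e4

end DPA

open DPA in
theorem t_DPA (hDPK : Stmt_DPK) (hDHR : Stmt_DHR) (hDPT : Stmt_DPT) : Stmt_DPA := by
  intro τ hp hi h0 δ η hδ hη r hr0 hr1 a
  have hrn : ‖(r : ℂ)‖ < 1 := by
    rw [Complex.norm_real, Real.norm_eq_abs, abs_of_nonneg hr0]
    exact hr1
  have hn : ∀ t, ‖ep r t‖ < 1 := by
    intro t
    unfold ep
    rw [norm_mul, Complex.norm_exp_ofReal_mul_I, mul_one]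
    exact hrn
  obtain ⟨kc, -, kp, -, kt⟩ := hDPK (r : ℂ) hrn
  have hle : a ≤ a + δ := by linarith
  -- the function of two variables
  have hmeas : AEStronglyMeasurable (fun p : ℝ × ℝ => pk (r : ℂ) p.1 * τ (p.1 + p.2))
      (cm.prod (volume.restrict (Ioc a (a + δ)))) := by
    have h1 : AEStronglyMeasurable (fun p : ℝ × ℝ => τ (p.1 + p.2))
        ((volume : Measure ℝ).prod volume) := by
      have h2 := (aesm hp hi).comp_snd (μ := (volume : Measure ℝ))
      exact h2.comp_measurePreserving (measurePreserving_prod_add volume volume)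
    have h3 : AEStronglyMeasurable (fun p : ℝ × ℝ => pk (r : ℂ) p.1 * τ (p.1 + p.2))
        ((volume : Measure ℝ).prod volume) :=
      (kc.comp continuous_fst).aestronglyMeasurable.mul h1
    refine h3.mono_measure ?_
    unfold cm
    rw [Measure.prod_restrict]
    exact Measure.restrict_le_self
  have hgi : ∀ {g : ℝ → ℝ}, Continuous g → Integrable g cm := fun hg => hg.integrableOn_Ioc
  have : SFinite cm := by
    unfold cm
    infer_instance
  have hG : Continuous fun s : ℝ => ∫ t in a..a + δ, τ (s + t) := by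
    have h1 : (fun s : ℝ => ∫ t in a..a + δ, τ (s + t)) =
        fun s : ℝ => (∫ t in (0 : ℝ)..(s + (a + δ)), τ t) - ∫ t in (0 : ℝ)..(s + a), τ t := by
      funext s
      rw [intervalIntegral.integral_comp_add_left (fun t => τ t) s,
        intervalIntegral.integral_interval_sub_left (ivi hp hi _ _) (ivi hp hi _ _)]
    rw [h1]
    have h2 := intervalIntegral.continuous_primitive (ivi hp hi) 0
    exact (h2.comp (continuous_id.add continuous_const)).sub
      (h2.comp (continuous_id.add continuous_const))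
  have hint : Integrable (fun p : ℝ × ℝ => pk (r : ℂ) p.1 * τ (p.1 + p.2))
      (cm.prod (volume.restrict (Ioc a (a + δ)))) := by
    rw [integrable_prod_iff hmeas]
    constructor
    · refine Eventually.of_forall fun s => ?_
      show Integrable (fun t => pk (r : ℂ) s * τ (s + t)) (volume.restrict (Ioc a (a + δ)))
      refine Integrable.const_mul (f := fun t => τ (s + t)) ?_ _
      have h1 : IntervalIntegrable (fun t => τ (s + t)) volume a (a + δ) := by
        have h5 : IntervalIntegrable (fun t => τ (s + t)) volume (s + a - s) (s + (a + δ) - s) :=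
          IntervalIntegrable.comp_add_left (f := τ) (ivi hp hi (s + a) (s + (a + δ))) s
            (by simp)
        simpa using h5
      rwa [intervalIntegrable_iff_integrableOn_Ioc_of_le hle] at h1
    · have h1 : (fun s : ℝ => ∫ t, ‖pk (r : ℂ) s * τ (s + t)‖ ∂(volume.restrict (Ioc a (a + δ)))) =
          fun s => pk (r : ℂ) s * ∫ t in a..a + δ, τ (s + t) := by
        funext s
        rw [intervalIntegral.integral_of_le hle, ← integral_const_mul]
        refine integral_congr_ae (Eventually.of_forall fun t => ?_)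
        show ‖pk (r : ℂ) s * τ (s + t)‖ = pk (r : ℂ) s * τ (s + t)
        rw [Real.norm_eq_abs, abs_of_nonneg (mul_nonneg (kp s).le (h0 _))]
      rw [h1]
      exact hgi (kc.mul hG)
  have hswap := integral_integral_swap (f := fun s t => pk (r : ℂ) s * τ (s + t)) hint
  have e1 : ∫ t in a..a + δ, (hz τ (ep r t)).re =
      (1 / (2 * π)) * ∫ s, (pk (r : ℂ) s * ∫ t in a..a + δ, τ (s + t)) ∂cm := by
    rw [intervalIntegral.integral_of_le hle]
    have e2 : ∀ t, (hz τ (ep r t)).re = (1 / (2 * π)) * ∫ s, pk (r : ℂ) s * τ (s + t) ∂cm := by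
      intro t
      rw [re_eq hDHR hDPT hp hi hr0 hr1 hn t]
      congr 1
      refine integral_congr_ae (Eventually.of_forall fun s => ?_)
      show pk (r : ℂ) s * τ (t + s) = pk (r : ℂ) s * τ (s + t)
      rw [add_comm t s]
    simp only [e2]
    rw [integral_const_mul, ← hswap]
    congr 1
    refine integral_congr_ae (μ := cm) (Eventually.of_forall fun s => ?_)
    show ∫ t in Ioc a (a + δ), pk (r : ℂ) s * τ (s + t) =
      pk (r : ℂ) s * ∫ t in a..a + δ, τ (s + t)
    rw [integral_const_mul, intervalIntegral.integral_of_le hle]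
  rw [e1]
  have hb : ∀ s, ∫ t in a..a + δ, τ (s + t) ≤ η := by
    intro s
    rw [intervalIntegral.integral_comp_add_left (fun t => τ t) s]
    have := hη (s + a)
    rwa [add_assoc] at this
  have h2 : ∫ s, (pk (r : ℂ) s * ∫ t in a..a + δ, τ (s + t)) ∂cm ≤ ∫ s, pk (r : ℂ) s * η ∂cm := by
    refine integral_mono (μ := cm) (hgi (kc.mul hG)) (hgi (kc.mul continuous_const)) fun s => ?_
    exact mul_le_mul_of_nonneg_left (hb s) (kp s).le
  rw [integral_mul_const, kt] at h2
  calc (1 / (2 * π)) * ∫ s, (pk (r : ℂ) s * ∫ t in a..a + δ, τ (s + t)) ∂cm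
      ≤ (1 / (2 * π)) * (2 * π * η) := by
        refine mul_le_mul_of_nonneg_left h2 ?_
        have := Real.pi_pos
        positivity
    _ = η := by
        have := Real.pi_pos
        field_simp

end Pool.Agent.FBM
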