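import Pool.Agent.FBM.StmtD

/-!
# FBM, module DPC: uniform approximation by Poisson integrals
-/

open MeasureTheory Set Filter Topology
open scoped Real

namespace Pool.Agent.FBM

theorem t_DPC (hDPK : Stmt_DPK) (hDPT : Stmt_DPT) (hDPM : Stmt_DPM) : Stmt_DPC := by
  intro ε δ M hε hδ
  have : IsFiniteMeasure cm := by
    unfold cm
    infer_instance
  have hη : (0 : ℝ) < π * ε / (|M| + 1) := by
    have := abs_nonneg M
    have := Real.pi_pos
    positivity
  have h1 : ∀ᶠ r : ℝ in 𝓝[<] (1 : ℝ), ∫ s in {s : ℝ | δ < |s|}, pk (r : ℂ) s ∂cm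
      < π * ε / (|M| + 1) := (hDPM δ hδ).eventually (Iio_mem_nhds hη)
  obtain ⟨r₀, hr₀, h2⟩ := (mem_nhdsLT_iff_exists_Ioo_subset).1 h1
  refine ⟨r₀, hr₀, ?_⟩
  intro r hr hr0 hr1 g hg hper heq hM θ
  have h3 : ∫ s in {s : ℝ | δ < |s|}, pk (r : ℂ) s ∂cm < π * ε / (|M| + 1) := h2 ⟨hr, hr1⟩
  have hrn : ‖(r : ℂ)‖ < 1 := by
    rw [Complex.norm_real, Real.norm_eq_abs, abs_of_nonneg hr0]
    exact hr1
  obtain ⟨kc, kp, kpos, -, kint⟩ := hDPK (r : ℂ) hrn
  have hM0 : 0 ≤ M := le_trans (norm_nonneg _) (hM 0)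
  -- integrability
  have kI : Integrable (pk (r : ℂ)) cm := by
    have : IntegrableOn (pk (r : ℂ)) (Icc (-π) π) volume := kc.continuousOn.integrableOn_Icc
    exact this.mono_set Ioc_subset_Icc_self
  have hgc : Continuous (fun s => g (θ + s)) := hg.comp (continuous_const.add continuous_id)
  have I1 : Integrable (fun s => ((pk (r : ℂ) s : ℝ) : ℂ) * g (θ + s)) cm := by
    have h : Continuous (fun s => ((pk (r : ℂ) s : ℝ) : ℂ) * g (θ + s)) :=
      (Complex.continuous_ofReal.comp kc).mul hgc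
    have : IntegrableOn (fun s => ((pk (r : ℂ) s : ℝ) : ℂ) * g (θ + s)) (Icc (-π) π) volume :=
      h.continuousOn.integrableOn_Icc
    exact this.mono_set Ioc_subset_Icc_self
  have I2 : Integrable (fun s => ((pk (r : ℂ) s : ℝ) : ℂ) * g θ) cm := by
    have h : Continuous (fun s => ((pk (r : ℂ) s : ℝ) : ℂ) * g θ) :=
      (Complex.continuous_ofReal.comp kc).mul continuous_const
    have : IntegrableOn (fun s => ((pk (r : ℂ) s : ℝ) : ℂ) * g θ) (Icc (-π) π) volume :=
      h.continuousOn.integrableOn_Icc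
    exact this.mono_set Ioc_subset_Icc_self
  have e1 : ∫ s, ((pk (r : ℂ) s : ℝ) : ℂ) * g θ ∂cm = (2 * π : ℂ) * g θ := by
    rw [integral_mul_const, integral_complex_ofReal, kint]
    push_cast
    rfl
  have hpi : (π : ℂ) ≠ 0 := by
    exact_mod_cast Real.pi_ne_zero
  have e2 : po g (ep r θ) - g θ
      = (1 / (2 * π) : ℂ) * ∫ s, ((pk (r : ℂ) s : ℝ) : ℂ) * (g (θ + s) - g θ) ∂cm := by
    rw [hDPT g hper r θ hr0 hr1]
    have : ∫ s, ((pk (r : ℂ) s : ℝ) : ℂ) * (g (θ + s) - g θ) ∂cm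
        = (∫ s, ((pk (r : ℂ) s : ℝ) : ℂ) * g (θ + s) ∂cm)
          - ∫ s, ((pk (r : ℂ) s : ℝ) : ℂ) * g θ ∂cm := by
      rw [← integral_sub I1 I2]
      refine integral_congr_ae (Eventually.of_forall fun s => ?_)
      simp only
      ring
    rw [this, e1, mul_sub]
    congr 1
    field_simp
  set S : Set ℝ := {s : ℝ | δ < |s|} with hS
  have mS : MeasurableSet S := measurableSet_lt measurable_const measurable_id.abs
  have I3 : Integrable (S.indicator (pk (r : ℂ))) cm := kI.indicator mS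
  have hle : ∀ s, ‖((pk (r : ℂ) s : ℝ) : ℂ) * (g (θ + s) - g θ)‖
      ≤ ε * pk (r : ℂ) s + (2 * M) * S.indicator (pk (r : ℂ)) s := by
    intro s
    have kp := kpos s
    rw [norm_mul, Complex.norm_real, Real.norm_eq_abs, abs_of_pos kp]
    by_cases hs : s ∈ S
    · rw [indicator_of_mem hs]
      have h4 : ‖g (θ + s) - g θ‖ ≤ 2 * M := by
        have := norm_sub_le (g (θ + s)) (g θ)
        have := hM (θ + s)
        have := hM θ
        linarith
      nlinarith
    · rw [indicator_of_notMem hs]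
      have h4 : ‖g (θ + s) - g θ‖ ≤ ε := by
        refine heq _ _ ?_
        have : ¬ δ < |s| := hs
        have e : θ + s - θ = s := by ring
        rw [e]
        exact not_lt.1 this
      nlinarith
  have hnorm : ‖∫ s, ((pk (r : ℂ) s : ℝ) : ℂ) * (g (θ + s) - g θ) ∂cm‖
      ≤ ε * (2 * π) + 2 * M * (π * ε / (|M| + 1)) := by
    refine le_trans (norm_integral_le_of_norm_le
      ((kI.const_mul ε).add (I3.const_mul (2 * M))) (Eventually.of_forall hle)) ?_
    have e3 : ∫ s, ((fun s => ε * pk (r : ℂ) s) + fun s => 2 * M * S.indicator (pk (r : ℂ)) s) s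
        ∂cm = ε * (2 * π) + 2 * M * ∫ s in S, pk (r : ℂ) s ∂cm := by
      rw [integral_add' (kI.const_mul ε) (I3.const_mul (2 * M)), integral_const_mul,
        integral_const_mul, kint, integral_indicator mS]
    calc _ = ε * (2 * π) + 2 * M * ∫ s in S, pk (r : ℂ) s ∂cm := by
          exact e3
      _ ≤ _ := by
          have := mul_le_mul_of_nonneg_left h3.le (by linarith : (0 : ℝ) ≤ 2 * M)
          linarith
  rw [e2, norm_mul]
  have hn : ‖(1 / (2 * π) : ℂ)‖ = 1 / (2 * π) := by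
    have : (1 / (2 * π) : ℂ) = ((1 / (2 * π) : ℝ) : ℂ) := by
      push_cast
      rfl
    rw [this, Complex.norm_real, Real.norm_eq_abs, abs_of_pos]
    have := Real.pi_pos
    positivity
  rw [hn]
  have hpp := Real.pi_pos
  have h5 : 2 * M * (π * ε / (|M| + 1)) ≤ 2 * π * ε := by
    rw [abs_of_nonneg hM0]
    rw [mul_div_assoc', div_le_iff₀ (by linarith)]
    have : 0 ≤ π * ε := by positivity
    nlinarith
  have h6 : 1 / (2 * π) * ‖∫ s, ((pk (r : ℂ) s : ℝ) : ℂ) * (g (θ + s) - g θ) ∂cm‖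
      ≤ 1 / (2 * π) * (2 * π * (2 * ε)) := by
    refine mul_le_mul_of_nonneg_left ?_ (by positivity)
    linarith
  refine h6.trans (le_of_eq ?_)
  field_simp

end Pool.Agent.FBM
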