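import Pool.Agent.FBM.StmtD

/-!
# DPL: approximation in `L¹` by Poisson integrals
-/

open MeasureTheory Set Filter Topology
open scoped Real

namespace Pool.Agent.FBM
namespace DPL

lemma cm_finite : IsFiniteMeasure cm := by
  unfold cm; infer_instance

lemma cm_real_univ : cm.real univ = 2 * π := by
  unfold cm
  rw [measureReal_restrict_apply_univ, Real.volume_real_Ioc_of_le (by linarith [Real.pi_pos])]
  ring

lemma ep_re (r t : ℝ) : (ep r t).re = r * Real.cos t := by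
  simp [ep, Complex.exp_ofReal_mul_I_re]

lemma ep_im (r t : ℝ) : (ep r t).im = r * Real.sin t := by
  simp [ep, Complex.exp_ofReal_mul_I_im]

lemma nrm (r t : ℝ) (hr : 0 ≤ r) : ‖ep r t‖ = r := by
  simp [ep, Complex.norm_exp_ofReal_mul_I, abs_of_nonneg hr]

lemma dist_sq (r θ t : ℝ) : ‖ep 1 t - ep r θ‖ ^ 2 =
    1 + r ^ 2 - 2 * r * (Real.cos t * Real.cos θ + Real.sin t * Real.sin θ) := by
  rw [Complex.sq_norm, Complex.normSq_apply]
  simp only [Complex.sub_re, Complex.sub_im, ep_re, ep_im]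
  linear_combination Real.sin_sq_add_cos_sq t + r ^ 2 * Real.sin_sq_add_cos_sq θ

lemma dist_low (r θ t : ℝ) (hr : 0 ≤ r) : 1 - r ≤ ‖ep 1 t - ep r θ‖ := by
  have h := norm_sub_norm_le (ep 1 t) (ep r θ)
  rw [nrm 1 t zero_le_one, nrm r θ hr] at h
  exact h

/-- symmetry of the kernel -/
lemma pk_symm (r θ t : ℝ) (hr : 0 ≤ r) : pk (ep r θ) t = pk (ep r t) θ := by
  unfold pk
  rw [nrm r θ hr, nrm r t hr, dist_sq, dist_sq]
  congr 1
  ring

lemma pk_nonneg (r θ t : ℝ) (hr : 0 ≤ r) (hr1 : r < 1) : 0 ≤ pk (ep r θ) t := by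
  unfold pk
  rw [nrm r θ hr]
  apply div_nonneg
  · nlinarith
  · positivity

lemma pk_le (r θ t : ℝ) (hr : 0 ≤ r) (hr1 : r < 1) :
    pk (ep r θ) t ≤ (1 - r ^ 2) / (1 - r) ^ 2 := by
  unfold pk
  rw [nrm r θ hr]
  have h1 : 0 < 1 - r := by linarith
  have h2 := dist_low r θ t hr
  apply div_le_div_of_nonneg_left
  · nlinarith
  · positivity
  · exact pow_le_pow_left₀ h1.le h2 2

lemma pk_cont (r : ℝ) (hr : 0 ≤ r) (hr1 : r < 1) :
    Continuous (fun p : ℝ × ℝ => pk (ep r p.1) p.2) := by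
  have e : (fun p : ℝ × ℝ => pk (ep r p.1) p.2) = fun p : ℝ × ℝ => (1 - r ^ 2) /
      ‖ep 1 p.2 - ep r p.1‖ ^ 2 := by
    funext p
    unfold pk
    rw [nrm r p.1 hr]
  rw [e]
  apply Continuous.div continuous_const
  · unfold ep
    fun_prop
  · intro p
    have h1 : 0 < 1 - r := by linarith
    have h2 := dist_low r p.1 p.2 hr
    have : 0 < ‖ep 1 p.2 - ep r p.1‖ := lt_of_lt_of_le h1 h2
    positivity

/-- the kernel times an integrable function is integrable on the product -/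
lemma prod_int (f : ℝ → ℂ) (hf : Integrable f cm) (r : ℝ) (hr : 0 ≤ r) (hr1 : r < 1) :
    Integrable (fun p : ℝ × ℝ => (pk (ep r p.1) p.2 : ℂ) * f p.2) (cm.prod cm) := by
  have := cm_finite
  have h1 : Integrable (fun p : ℝ × ℝ => f p.2) (cm.prod cm) := hf.comp_snd cm
  refine h1.bdd_mul (c := (1 - r ^ 2) / (1 - r) ^ 2) ?_ ?_
  · exact (Complex.continuous_ofReal.comp (pk_cont r hr hr1)).aestronglyMeasurable
  · refine Eventually.of_forall fun p => ?_
    rw [Complex.norm_real, Real.norm_of_nonneg (pk_nonneg r _ _ hr hr1)]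
    exact pk_le r _ _ hr hr1

/-- at a fixed point of the disc -/
lemma ker_int (f : ℝ → ℂ) (hf : Integrable f cm) (r θ : ℝ) (hr : 0 ≤ r) (hr1 : r < 1) :
    Integrable (fun t : ℝ => (pk (ep r θ) t : ℂ) * f t) cm := by
  refine hf.bdd_mul (c := (1 - r ^ 2) / (1 - r) ^ 2) ?_ ?_
  · exact (Complex.continuous_ofReal.comp ((pk_cont r hr hr1).comp
      (Continuous.prodMk_right θ))).aestronglyMeasurable
  · refine Eventually.of_forall fun p => ?_
    rw [Complex.norm_real, Real.norm_of_nonneg (pk_nonneg r _ _ hr hr1)]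
    exact pk_le r _ _ hr hr1

lemma po_int (f : ℝ → ℂ) (hf : Integrable f cm) (r : ℝ) (hr : 0 ≤ r) (hr1 : r < 1) :
    Integrable (fun θ => po f (ep r θ)) cm := by
  have := cm_finite
  unfold po
  exact (prod_int f hf r hr hr1).integral_prod_left.const_mul _

lemma po_sub (f g : ℝ → ℂ) (hf : Integrable f cm) (hg : Integrable g cm) (r θ : ℝ)
    (hr : 0 ≤ r) (hr1 : r < 1) :
    po (fun t => f t - g t) (ep r θ) = po f (ep r θ) - po g (ep r θ) := by
  unfold po
  rw [← mul_sub, ← integral_sub (ker_int f hf r θ hr hr1) (ker_int g hg r θ hr hr1)]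
  congr 1
  apply integral_congr_ae
  refine Eventually.of_forall fun t => ?_
  ring

lemma ker_total (hDPK : Stmt_DPK) (r t : ℝ) (hr : 0 ≤ r) (hr1 : r < 1) :
    ∫ θ, pk (ep r θ) t ∂cm = 2 * π := by
  have h := (hDPK (ep r t) (by rw [nrm r t hr]; exact hr1)).2.2.2.2
  rw [← h]
  apply integral_congr_ae
  refine Eventually.of_forall fun θ => ?_
  exact pk_symm r θ t hr

/-- contraction -/
lemma contr (hDPK : Stmt_DPK) (f : ℝ → ℂ) (hf : Integrable f cm) (r : ℝ) (hr : 0 ≤ r)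
    (hr1 : r < 1) : ∫ θ, ‖po f (ep r θ)‖ ∂cm ≤ ∫ t, ‖f t‖ ∂cm := by
  have := cm_finite
  have hpi := Real.pi_pos
  have hP := (prod_int f hf r hr hr1).norm
  have h1 : ∀ θ, ‖po f (ep r θ)‖ ≤ (1 / (2 * π)) * ∫ t, ‖(pk (ep r θ) t : ℂ) * f t‖ ∂cm := by
    intro θ
    unfold po
    rw [norm_mul]
    have e : ‖(1 / (2 * π) : ℂ)‖ = 1 / (2 * π) := by
      rw [norm_div, norm_one, norm_mul, Complex.norm_real, Real.norm_of_nonneg hpi.le]
      simp
    rw [e]
    exact mul_le_mul_of_nonneg_left (norm_integral_le_integral_norm _) (by positivity)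
  have h2 : ∫ θ, ‖po f (ep r θ)‖ ∂cm ≤
      ∫ θ, (1 / (2 * π)) * ∫ t, ‖(pk (ep r θ) t : ℂ) * f t‖ ∂cm ∂cm := by
    apply integral_mono (po_int f hf r hr hr1).norm
    · exact hP.integral_prod_left.const_mul _
    · exact h1
  refine h2.trans ?_
  rw [integral_const_mul]
  have h3 : ∫ θ, ∫ t, ‖(pk (ep r θ) t : ℂ) * f t‖ ∂cm ∂cm =
      ∫ t, ∫ θ, ‖(pk (ep r θ) t : ℂ) * f t‖ ∂cm ∂cm := by
    exact integral_integral_swap hP
  rw [h3]
  have h4 : ∀ t, ∫ θ, ‖(pk (ep r θ) t : ℂ) * f t‖ ∂cm = 2 * π * ‖f t‖ := by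
    intro t
    have : (fun θ => ‖(pk (ep r θ) t : ℂ) * f t‖) = fun θ => pk (ep r θ) t * ‖f t‖ := by
      funext θ
      rw [norm_mul, Complex.norm_real, Real.norm_of_nonneg (pk_nonneg r _ _ hr hr1)]
    rw [this, integral_mul_const, ker_total hDPK r t hr hr1]
  simp_rw [h4]
  rw [integral_const_mul, ← mul_assoc]
  have : 1 / (2 * π) * (2 * π) = 1 := by field_simp
  rw [this, one_mul]

/-- approximation by continuous periodic functions -/
lemma approx (f : ℝ → ℂ) (hf : Integrable f cm) (ε : ℝ) (hε : 0 < ε) :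
    ∃ g : ℝ → ℂ, Continuous g ∧ Function.Periodic g (2 * π) ∧ Integrable g cm ∧
      ∫ t, ‖f t - g t‖ ∂cm ≤ ε := by
  have : Fact (0 < 2 * π) := ⟨by positivity⟩
  have := cm_finite
  have ecm : cm = volume.restrict (Ioc (-π) (-π + 2 * π)) := by
    unfold cm
    congr 2
    ring
  have hF : Integrable (AddCircle.liftIoc (2 * π) (-π) f) volume := by
    rw [← memLp_one_iff_integrable]
    apply MemLp.memLp_liftIoc
    rw [← ecm, memLp_one_iff_integrable]
    exact hf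
  obtain ⟨g, -, h1, h2, -⟩ := hF.exists_hasCompactSupport_integral_sub_le hε
  have hgc : Continuous (fun t : ℝ => g (t : AddCircle (2 * π))) :=
    h2.comp (AddCircle.continuous_mk' (2 * π))
  have hper : Function.Periodic (fun t : ℝ => g (t : AddCircle (2 * π))) (2 * π) := by
    intro t
    simp
  refine ⟨fun t => g (t : AddCircle (2 * π)), hgc, hper, ?_, ?_⟩
  · have : IntegrableOn (fun t : ℝ => g (t : AddCircle (2 * π))) (Ioc (-π) π) volume :=
      (hgc.integrableOn_Icc (a := -π) (b := π)).mono_set Ioc_subset_Icc_self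
    exact this
  · have h3 := AddCircle.integral_preimage (2 * π) (-π)
      (fun x => ‖AddCircle.liftIoc (2 * π) (-π) f x - g x‖)
    rw [← h3] at h1
    refine le_trans (le_of_eq ?_) h1
    rw [ecm]
    apply setIntegral_congr_fun measurableSet_Ioc
    intro t ht
    have e : AddCircle.liftIoc (2 * π) (-π) f (t : AddCircle (2 * π)) = f t :=
      AddCircle.liftIoc_coe_apply ht
    simp only [e]

/-- a continuous periodic function is bounded -/
lemma bdd (g : ℝ → ℂ) (hg : Continuous g) (hp : Function.Periodic g (2 * π)) :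
    ∃ M, ∀ t, ‖g t‖ ≤ M := by
  have h2 : (0 : ℝ) < 2 * π := by positivity
  obtain ⟨M, hM⟩ := isCompact_Icc.exists_bound_of_continuousOn
    (s := Icc (0 : ℝ) (2 * π)) hg.continuousOn
  refine ⟨M, fun t => ?_⟩
  obtain ⟨y, hy, e⟩ := hp.exists_mem_Ico₀ h2 t
  rw [e]
  exact hM y ⟨hy.1, hy.2.le⟩

/-- a continuous periodic function is uniformly continuous -/
lemma uc (g : ℝ → ℂ) (hg : Continuous g) (hp : Function.Periodic g (2 * π)) (ε : ℝ)
    (hε : 0 < ε) : ∃ δ > 0, ∀ s t : ℝ, |s - t| ≤ δ → ‖g s - g t‖ ≤ ε := by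
  have h2 : (0 : ℝ) < 2 * π := by positivity
  have hc := isCompact_Icc.uniformContinuousOn_of_continuous
    (s := Icc (-1 : ℝ) (2 * π + 1)) hg.continuousOn
  rw [Metric.uniformContinuousOn_iff] at hc
  obtain ⟨δ, hδ, h⟩ := hc ε hε
  refine ⟨min (δ / 2) 1, by positivity, fun s t hst => ?_⟩
  obtain ⟨n, hn, -⟩ := existsUnique_add_zsmul_mem_Ico h2 t 0
  simp only [zsmul_eq_mul, zero_add] at hn
  have e1 : g (t + n * (2 * π)) = g t := hp.int_mul n t
  have e2 : g (s + n * (2 * π)) = g s := hp.int_mul n s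
  rw [← e1, ← e2]
  have hst1 : |s - t| ≤ 1 := hst.trans (min_le_right _ _)
  have hst2 : |s - t| ≤ δ / 2 := hst.trans (min_le_left _ _)
  have h3 := abs_le.1 hst1
  have h4 : dist (s + n * (2 * π)) (t + n * (2 * π)) < δ := by
    rw [Real.dist_eq]
    have : s + n * (2 * π) - (t + n * (2 * π)) = s - t := by ring
    rw [this]
    linarith
  have h5 := h (s + n * (2 * π)) ⟨by linarith [hn.1], by linarith [hn.2]⟩
    (t + n * (2 * π)) ⟨by linarith [hn.1], by linarith [hn.2]⟩ h4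
  rw [dist_eq_norm] at h5
  exact h5.le

end DPL

open DPL in
theorem t_DPL (hDPK : Stmt_DPK) (_hDPT : Stmt_DPT) (hDPC : Stmt_DPC) : Stmt_DPL := by
  intro f _ hf
  have := cm_finite
  have hpi := Real.pi_pos
  rw [Metric.tendsto_nhds]
  intro ε hε
  obtain ⟨g, hgc, hgp, hgi, hfg⟩ := approx f hf (ε / 4) (by positivity)
  obtain ⟨M, hM⟩ := bdd g hgc hgp
  obtain ⟨δ, hδ, hu⟩ := uc g hgc hgp (ε / (16 * π)) (by positivity)
  obtain ⟨r₀, hr₀, hC⟩ := hDPC (ε / (16 * π)) δ M (by positivity) hδ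
  have hev : ∀ᶠ r : ℝ in 𝓝[<] 1, r₀ < r ∧ 0 < r ∧ r < 1 := by
    have a1 : ∀ᶠ r : ℝ in 𝓝[<] 1, r₀ < r :=
      mem_nhdsWithin_of_mem_nhds (lt_mem_nhds hr₀)
    have a2 : ∀ᶠ r : ℝ in 𝓝[<] 1, 0 < r :=
      mem_nhdsWithin_of_mem_nhds (lt_mem_nhds one_pos)
    have a3 : ∀ᶠ r : ℝ in 𝓝[<] 1, r < 1 := self_mem_nhdsWithin
    filter_upwards [a1, a2, a3] with r b1 b2 b3 using ⟨b1, b2, b3⟩
  filter_upwards [hev] with r hr
  obtain ⟨b1, b2, b3⟩ := hr
  have hnn : 0 ≤ ∫ t, ‖po f (ep r t) - f t‖ ∂cm := integral_nonneg fun t => norm_nonneg _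
  rw [Real.dist_eq, sub_zero, abs_of_nonneg hnn]
  have hdi : Integrable (fun t => f t - g t) cm := hf.sub hgi
  have hpo1 := po_int _ hdi r b2.le b3
  have hb : ∀ t, ‖po f (ep r t) - f t‖ ≤
      (‖po (fun t => f t - g t) (ep r t)‖ + 2 * (ε / (16 * π))) + ‖f t - g t‖ := by
    intro t
    have e : po f (ep r t) - f t = po (fun t => f t - g t) (ep r t) +
        (po g (ep r t) - g t) - (f t - g t) := by
      rw [po_sub f g hf hgi r t b2.le b3]
      ring
    rw [e]
    have c1 := hC r b1 b2.le b3 g hgc hgp hu hM t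
    calc _ ≤ ‖po (fun t => f t - g t) (ep r t) + (po g (ep r t) - g t)‖ + ‖f t - g t‖ :=
          norm_sub_le _ _
      _ ≤ _ := by
          have := norm_add_le (po (fun t => f t - g t) (ep r t)) (po g (ep r t) - g t)
          linarith
  have hci : Integrable (fun _ : ℝ => 2 * (ε / (16 * π))) cm := integrable_const _
  have hm : ∫ t, ‖po f (ep r t) - f t‖ ∂cm ≤
      ∫ t, ((‖po (fun t => f t - g t) (ep r t)‖ + 2 * (ε / (16 * π))) + ‖f t - g t‖) ∂cm := by
    apply integral_mono ((po_int f hf r b2.le b3).sub hf).norm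
    · exact (hpo1.norm.add hci).add hdi.norm
    · exact hb
  refine lt_of_le_of_lt hm ?_
  rw [integral_add (f := fun t => ‖po (fun t => f t - g t) (ep r t)‖ + 2 * (ε / (16 * π)))
    (hpo1.norm.add hci) hdi.norm, integral_add hpo1.norm hci, integral_const, cm_real_univ]
  have k1 := contr hDPK _ hdi r b2.le b3
  have k2 : (2 * π) • (2 * (ε / (16 * π))) = ε / 4 := by
    rw [smul_eq_mul]
    field_simp
    ring
  rw [k2]
  linarith

end Pool.Agent.FBM
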