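import Pool.Agent.FBM.StmtD

/-!
# DPM: the Poisson kernel concentrates at `0`
-/

open MeasureTheory Set Filter Topology
open scoped Real

namespace Pool.Agent.FBM.DPM

open Pool.Agent.FBM

lemma ep_norm (r s : ℝ) : ‖ep 1 s - (r : ℂ)‖ ^ 2 = 1 - 2 * r * Real.cos s + r ^ 2 := by
  rw [Complex.sq_norm, Complex.normSq_apply]
  unfold ep
  rw [Complex.exp_mul_I, ← Complex.ofReal_cos, ← Complex.ofReal_sin]
  simp only [Complex.ofReal_one, one_mul, Complex.sub_re, Complex.add_re, Complex.ofReal_re,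
    Complex.mul_re, Complex.I_re, mul_zero, Complex.ofReal_im, Complex.I_im, mul_one, sub_self,
    add_zero, Complex.sub_im, Complex.add_im, Complex.mul_im, zero_add, sub_zero]
  have := Real.sin_sq_add_cos_sq s
  nlinarith [this]

lemma pk_eq (r s : ℝ) : pk (r : ℂ) s = (1 - r ^ 2) / (1 - 2 * r * Real.cos s + r ^ 2) := by
  unfold pk
  rw [ep_norm, Complex.norm_real, Real.norm_eq_abs, sq_abs]

lemma pk_nonneg (r s : ℝ) (h0 : 0 ≤ r) (h1 : r < 1) : 0 ≤ pk (r : ℂ) s := by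
  unfold pk
  rw [Complex.norm_real, Real.norm_eq_abs, sq_abs]
  apply div_nonneg
  · nlinarith
  · positivity

lemma pk_le (r s δ : ℝ) (h0 : 0 ≤ r) (h1 : r < 1) (hδ : 0 < δ) (hδπ : δ < π) (hs : δ < |s|)
    (hsπ : |s| ≤ π) : pk (r : ℂ) s ≤ (1 - r ^ 2) / Real.sin δ ^ 2 := by
  rw [pk_eq]
  have hsin : 0 < Real.sin δ := Real.sin_pos_of_pos_of_lt_pi hδ hδπ
  have hcos : Real.cos s ≤ Real.cos δ := by
    rw [← Real.cos_abs s]
    exact Real.cos_le_cos_of_nonneg_of_le_pi hδ.le hsπ hs.le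
  apply div_le_div_of_nonneg_left
  · nlinarith
  · positivity
  · have h := Real.sin_sq_add_cos_sq δ
    nlinarith [sq_nonneg (r - Real.cos δ), mul_le_mul_of_nonneg_left hcos h0]

end Pool.Agent.FBM.DPM

namespace Pool.Agent.FBM

open Pool.Agent.FBM.DPM

theorem t_DPM : Stmt_DPM := by
  intro δ hδ
  have hmeas : MeasurableSet {s : ℝ | δ < |s|} :=
    (isOpen_lt continuous_const continuous_abs).measurableSet
  have hrw : ∀ r : ℝ, ∫ s in {s : ℝ | δ < |s|}, pk (r : ℂ) s ∂cm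
      = ∫ s in {s : ℝ | δ < |s|} ∩ Ioc (-π) π, pk (r : ℂ) s := by
    intro r
    unfold cm
    rw [Measure.restrict_restrict hmeas]
  by_cases hδπ : δ < π
  · have hpi := Real.pi_pos
    have hlim : Tendsto (fun r : ℝ => (1 - r ^ 2) / Real.sin δ ^ 2 * (2 * π)) (𝓝[<] 1) (𝓝 0) := by
      have h : Tendsto (fun r : ℝ => (1 - r ^ 2) / Real.sin δ ^ 2 * (2 * π)) (𝓝 1)
          (𝓝 ((1 - 1 ^ 2) / Real.sin δ ^ 2 * (2 * π))) := by
        apply Continuous.tendsto
        fun_prop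
      have e : ((1 : ℝ) - 1 ^ 2) / Real.sin δ ^ 2 * (2 * π) = 0 := by norm_num
      rw [e] at h
      exact h.mono_left nhdsWithin_le_nhds
    have hev : ∀ᶠ r : ℝ in 𝓝[<] 1, 0 < r ∧ r < 1 := by
      have h1 : ∀ᶠ r : ℝ in 𝓝[<] 1, r < 1 := eventually_mem_nhdsWithin
      have h2 : ∀ᶠ r : ℝ in 𝓝[<] 1, 0 < r :=
        nhdsWithin_le_nhds (lt_mem_nhds (by norm_num : (0 : ℝ) < 1))
      exact h2.and h1
    refine tendsto_of_tendsto_of_tendsto_of_le_of_le' tendsto_const_nhds hlim ?_ ?_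
    · filter_upwards [hev] with r hr
      exact integral_nonneg fun s => pk_nonneg r s hr.1.le hr.2
    · filter_upwards [hev] with r hr
      rw [hrw]
      have hfin : volume ({s : ℝ | δ < |s|} ∩ Ioc (-π) π) < ⊤ :=
        lt_of_le_of_lt (measure_mono inter_subset_right) (by
          rw [Real.volume_Ioc]; exact ENNReal.ofReal_lt_top)
      have hC : ∀ s ∈ {s : ℝ | δ < |s|} ∩ Ioc (-π) π,
          ‖pk (r : ℂ) s‖ ≤ (1 - r ^ 2) / Real.sin δ ^ 2 := by
        intro s hs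
        rw [Real.norm_eq_abs, abs_of_nonneg (pk_nonneg r s hr.1.le hr.2)]
        refine pk_le r s δ hr.1.le hr.2 hδ hδπ hs.1 ?_
        rw [abs_le]
        exact ⟨hs.2.1.le, hs.2.2⟩
      have hb := norm_setIntegral_le_of_norm_le_const hfin hC
      have hv : volume.real ({s : ℝ | δ < |s|} ∩ Ioc (-π) π) ≤ 2 * π := by
        have h1 : volume.real ({s : ℝ | δ < |s|} ∩ Ioc (-π) π) ≤ volume.real (Ioc (-π) π) :=
          measureReal_mono inter_subset_right (by rw [Real.volume_Ioc]; exact ENNReal.ofReal_ne_top)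
        have h2 : volume.real (Ioc (-π) π) = 2 * π := by
          rw [Real.volume_real_Ioc_of_le (by linarith)]; ring
        linarith
      have hcpos : 0 ≤ (1 - r ^ 2) / Real.sin δ ^ 2 := by
        apply div_nonneg
        · nlinarith [hr.1, hr.2]
        · positivity
      calc ∫ s in {s : ℝ | δ < |s|} ∩ Ioc (-π) π, pk (r : ℂ) s
          ≤ ‖∫ s in {s : ℝ | δ < |s|} ∩ Ioc (-π) π, pk (r : ℂ) s‖ := le_abs_self _
        _ ≤ (1 - r ^ 2) / Real.sin δ ^ 2 * volume.real ({s : ℝ | δ < |s|} ∩ Ioc (-π) π) := hb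
        _ ≤ _ := mul_le_mul_of_nonneg_left hv hcpos
  · have hemp : {s : ℝ | δ < |s|} ∩ Ioc (-π) π = ∅ := by
      ext s
      simp only [mem_inter_iff, mem_setOf_eq, mem_Ioc, mem_empty_iff_false, iff_false, not_and]
      intro h1 h2 h3
      have : |s| ≤ π := abs_le.mpr ⟨h2.le, h3⟩
      linarith
    have h0 : ∀ r : ℝ, ∫ s in {s : ℝ | δ < |s|}, pk (r : ℂ) s ∂cm = 0 := by
      intro r
      rw [hrw, hemp, setIntegral_empty]
    simp only [h0]
    exact tendsto_const_nhds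

end Pool.Agent.FBM
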