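import Pool.Agent.FBM.StmtD

/-!
# DPT: the Poisson integral as an average of translates
-/

open MeasureTheory Set Filter Topology
open scoped Real

namespace Pool.Agent.FBM

namespace DPT

theorem cm_eq (g : ℝ → ℂ) : ∫ t, g t ∂cm = ∫ t in (-π)..π, g t := by
  rw [intervalIntegral.integral_of_le (by linarith [Real.pi_pos])]
  rfl

theorem norm_ep (r t : ℝ) : ‖ep r t‖ = |r| := by
  simp [ep, Complex.norm_exp]

theorem pk_shift (r θ s : ℝ) : pk (ep r θ) (θ + s) = pk (r : ℂ) s := by
  have h : ep 1 (θ + s) - ep r θ = Complex.exp (θ * Complex.I) * (ep 1 s - (r : ℂ)) := by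
    unfold ep
    push_cast
    rw [add_mul, Complex.exp_add]
    ring
  have h2 : ‖Complex.exp ((θ : ℂ) * Complex.I)‖ = 1 := Complex.norm_exp_ofReal_mul_I θ
  unfold pk
  rw [h, norm_mul, h2, one_mul, norm_ep, Complex.norm_real, Real.norm_eq_abs]

theorem pk_per (z : ℂ) : Function.Periodic (pk z) (2 * π) := by
  intro t
  have : ep 1 (t + 2 * π) = ep 1 t := by
    unfold ep
    push_cast
    rw [add_mul, Complex.exp_add, Complex.exp_two_pi_mul_I, mul_one]
  unfold pk
  rw [this]

end DPT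

theorem t_DPT : Stmt_DPT := by
  intro f hf r θ _ _
  unfold po
  congr 1
  rw [DPT.cm_eq, DPT.cm_eq]
  set g : ℝ → ℂ := fun t => (pk (ep r θ) t : ℂ) * f t with hg
  have hper : Function.Periodic g (2 * π) := by
    intro t
    simp only [hg, DPT.pk_per (ep r θ) t, hf t]
  have e1 : ∀ s : ℝ, (pk (r : ℂ) s : ℂ) * f (θ + s) = g (θ + s) := by
    intro s
    simp only [hg, DPT.pk_shift]
  have e2 : ∫ s in (-π)..π, (pk (r : ℂ) s : ℂ) * f (θ + s) = ∫ s in (-π)..π, g (θ + s) :=
    intervalIntegral.integral_congr (fun s _ => e1 s)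
  rw [e2, intervalIntegral.integral_comp_add_left (fun x => g x) θ]
  have e3 := hper.intervalIntegral_add_eq (-π) (θ + -π)
  rw [show -π + 2 * π = π by ring, show θ + -π + 2 * π = θ + π by ring] at e3
  exact e3

end Pool.Agent.FBM

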