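import Pool.Agent.FBM.StmtD

/-!
# FBM, block D: the real part of the boundary values
-/

open MeasureTheory Set Filter Topology
open scoped Real

namespace Pool.Agent.FBM

namespace DRE

lemma int_iff {P : ℝ → Prop} (hP : ∀ t, P (t + 2 * π) ↔ P t) (n : ℤ) (t : ℝ) :
    P (t + n * (2 * π)) ↔ P t := by
  induction n using Int.induction_on with
  | zero => simp
  | succ n ih =>
    rw [← ih]
    have := hP (t + ((n : ℤ) : ℝ) * (2 * π))
    rw [← this]
    push_cast
    ring_nf
  | pred n ih =>
    rw [← ih]
    have := hP (t + ((-(n : ℤ) - 1 : ℤ) : ℝ) * (2 * π))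
    rw [← this]
    push_cast
    ring_nf

/-- from one period to the whole line -/
lemma ae_of_cm {P : ℝ → Prop} (hP : ∀ t, P (t + 2 * π) ↔ P t) (h : ∀ᵐ t ∂cm, P t) :
    ∀ᵐ t, P t := by
  rw [ae_iff] at h ⊢
  unfold cm at h
  rw [Measure.restrict_apply' measurableSet_Ioc] at h
  have hT : (0 : ℝ) < 2 * π := by positivity
  have hd := isAddFundamentalDomain_Ioc hT (-π) volume
  have e : -π + 2 * π = π := by ring
  rw [e] at hd
  refine hd.measure_zero_of_invariant {a | ¬ P a} ?_ h
  rintro ⟨g, hg⟩
  obtain ⟨n, hn⟩ := AddSubgroup.mem_zmultiples_iff.mp hg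
  ext x
  rw [Set.mem_vadd_set_iff_neg_vadd_mem]
  have e2 : -(⟨g, hg⟩ : AddSubgroup.zmultiples (2 * π)) +ᵥ x = x + ((-n : ℤ) : ℝ) * (2 * π) := by
    change -g + x = _
    rw [← hn]
    push_cast
    simp only [zsmul_eq_mul]
    ring
  rw [e2]
  exact not_congr (int_iff hP (-n) x)

lemma norm_ep (r t : ℝ) : ‖ep r t‖ = |r| := by
  unfold ep
  rw [norm_mul, Complex.norm_exp_ofReal_mul_I, mul_one, Complex.norm_real, Real.norm_eq_abs]

/-- the Herglotz integral on a circle is measurable -/
lemma meas_hz {u : ℝ → ℝ} (hu : Measurable u) (r : ℝ) : Measurable (fun t => hz u (ep r t)) := by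
  unfold hz ep
  have h : StronglyMeasurable (fun p : ℝ × ℝ =>
      ((Complex.exp (p.2 * Complex.I) + r * Complex.exp (p.1 * Complex.I)) /
        (Complex.exp (p.2 * Complex.I) - r * Complex.exp (p.1 * Complex.I))) * (u p.2 : ℂ)) := by
    apply Measurable.stronglyMeasurable
    have h1 : Measurable (fun p : ℝ × ℝ => (u p.2 : ℂ)) :=
      Complex.measurable_ofReal.comp (hu.comp measurable_snd)
    have h2 : Measurable (fun p : ℝ × ℝ => Complex.exp (p.2 * Complex.I)) := by fun_prop
    have h3 : Measurable (fun p : ℝ × ℝ => (r : ℂ) * Complex.exp (p.1 * Complex.I)) := by fun_prop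
    exact ((h2.add h3).div (h2.sub h3)).mul h1
  have : SFinite cm := by unfold cm; infer_instance
  have h' := (h.integral_prod_right' (ν := cm)).measurable
  exact h'.const_mul _

end DRE

open DRE

theorem t_DRE (hDPL : Stmt_DPL) (hDHR : Stmt_DHR) : Stmt_DRE := by
  intro u g hum hup hui hgc hgp hunif
  have hfin : IsFiniteMeasure cm := by unfold cm; infer_instance
  -- bound of g
  have hgi : Integrable g cm := by
    unfold cm
    exact (hgc.integrableOn_Icc (a := -π) (b := π)).mono_set Ioc_subset_Icc_self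
  have hfi : Integrable (fun t => (u t : ℂ)) cm := hui.ofReal
  have hL := hDPL (fun t => (u t : ℂ)) (fun t => by simp only [hup t]) hfi
  -- the estimate
  have key : ∀ ε : ℝ, 0 < ε → ∫ t, |(g t).re - u t| ∂cm ≤ (1 + cm.real univ) * ε := by
    intro ε hε
    obtain ⟨r₀, hr₀, hr⟩ := hunif ε hε
    have h1 : ∀ᶠ r : ℝ in 𝓝[<] 1, ∫ t, ‖po (fun t => (u t : ℂ)) (ep r t) - (u t : ℂ)‖ ∂cm < ε :=
      hL.eventually (gt_mem_nhds hε)
    have h2 : ∀ᶠ r : ℝ in 𝓝[<] (1 : ℝ), max r₀ 0 < r ∧ r < 1 :=
      Ioo_mem_nhdsLT (max_lt hr₀ one_pos)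
    obtain ⟨r, hr1, hr2, hr3⟩ := (h1.and h2).exists
    have hrr : r₀ < r := (le_max_left _ _).trans_lt hr2
    have hr0 : 0 < r := (le_max_right _ _).trans_lt hr2
    have hpo : ∀ t, po (fun t => (u t : ℂ)) (ep r t) = (((hz u (ep r t)).re : ℝ) : ℂ) := by
      intro t
      refine (hDHR u hui (ep r t) ?_).symm
      rw [norm_ep, abs_of_pos hr0]
      exact hr3
    have hnorm : ∀ t, ‖po (fun t => (u t : ℂ)) (ep r t) - (u t : ℂ)‖
        = |(hz u (ep r t)).re - u t| := by
      intro t
      rw [hpo t, ← Complex.ofReal_sub, Complex.norm_real, Real.norm_eq_abs]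
    simp only [hnorm] at hr1
    have hre : ∀ t, |(hz u (ep r t)).re - (g t).re| ≤ ε := by
      intro t
      have := hr r t hrr hr0.le hr3
      rw [← Complex.sub_re]
      exact (Complex.abs_re_le_norm _).trans this
    have hmz : Measurable (fun t => (hz u (ep r t)).re) :=
      Complex.measurable_re.comp (meas_hz hum r)
    have hi1 : Integrable (fun t => (hz u (ep r t)).re - (g t).re) cm := by
      refine (integrable_const ε).mono' ?_ (Eventually.of_forall fun t => ?_)
      · exact (hmz.sub (Complex.measurable_re.comp hgc.measurable)).aestronglyMeasurable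
      · rw [Real.norm_eq_abs]; exact hre t
    have hi2 : Integrable (fun t => (hz u (ep r t)).re - u t) cm := by
      have := hi1.add (hgi.re.sub hui)
      refine this.congr (Eventually.of_forall fun t => ?_)
      simp only [Pi.add_apply, Pi.sub_apply, RCLike.re_to_complex]
      ring
    calc ∫ t, |(g t).re - u t| ∂cm
        ≤ ∫ t, (ε + |(hz u (ep r t)).re - u t|) ∂cm := by
          refine integral_mono_of_nonneg (Eventually.of_forall fun t => abs_nonneg _)
            ((integrable_const ε).add hi2.abs) (Eventually.of_forall fun t => ?_)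
          have h3 := hre t
          have h4 : (g t).re - u t = -((hz u (ep r t)).re - (g t).re)
              + ((hz u (ep r t)).re - u t) := by ring
          simp only
          rw [h4]
          refine (abs_add_le _ _).trans ?_
          rw [abs_neg]
          exact add_le_add h3 le_rfl
      _ = cm.real univ * ε + ∫ t, |(hz u (ep r t)).re - u t| ∂cm := by
          rw [integral_add (integrable_const ε) hi2.abs, integral_const, smul_eq_mul]
      _ ≤ (1 + cm.real univ) * ε := by linarith
  have hzero : ∫ t, |(g t).re - u t| ∂cm = 0 := by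
    refine le_antisymm ?_ (integral_nonneg fun t => abs_nonneg _)
    refine le_of_forall_pos_le_add fun ε hε => ?_
    have hc : 0 < 1 + cm.real univ := by positivity
    have := key (ε / (1 + cm.real univ)) (by positivity)
    rw [mul_div_cancel₀ _ hc.ne'] at this
    linarith
  have hint : Integrable (fun t => |(g t).re - u t|) cm := by
    have := (hgi.re.sub hui).abs
    refine this.congr (Eventually.of_forall fun t => ?_)
    simp only [Pi.sub_apply, RCLike.re_to_complex]
  rw [integral_eq_zero_iff_of_nonneg (fun t => abs_nonneg _) hint] at hzero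
  refine ae_of_cm (fun t => ?_) ?_
  · rw [hgp t, hup t]
  · filter_upwards [hzero] with t ht
    have h5 : |(g t).re - u t| = 0 := ht
    have := abs_eq_zero.mp h5
    linarith

end Pool.Agent.FBM
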