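import Pool.Agent.FBM.StmtD

/-!
# Block D: holomorphic functions are Poisson integrals of their values on smaller circles
-/

open MeasureTheory Set Filter Topology
open scoped Real

namespace Pool.Agent.FBM

namespace DSG

lemma norm_ep (r t : ℝ) (hr : 0 ≤ r) : ‖ep r t‖ = r := by
  rw [ep, norm_mul, Complex.norm_exp_ofReal_mul_I, mul_one, Complex.norm_real,
    Real.norm_of_nonneg hr]

lemma ep_per (r t : ℝ) : ep r (t + 2 * π) = ep r t := by
  unfold ep
  congr 1
  have : (((t + 2 * π : ℝ) : ℂ)) * Complex.I = (t : ℂ) * Complex.I + 2 * π * Complex.I := by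
    push_cast; ring
  rw [this, Complex.exp_periodic]

lemma circle_eq (t : ℝ) : circleMap 0 1 t = ep 1 t := by
  simp [circleMap, ep]

lemma mul_ep (r r' t : ℝ) : (r' : ℂ) * ep r t = ep (r * r') t := by
  unfold ep
  push_cast
  ring

end DSG

/-- DSG -/
theorem t_DSG : Stmt_DSG := by
  intro F hF r r' θ hr0 hr1 hr0' hr1'
  set w : ℂ := ep r θ with hw
  have hwn : ‖w‖ = r := DSG.norm_ep r θ hr0
  have hwb : w ∈ Metric.ball (0 : ℂ) 1 := by
    rw [mem_ball_zero_iff, hwn]; exact hr1
  set f : ℂ → ℂ := fun z => F ((r' : ℂ) * z) with hf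
  have hmaps : MapsTo (fun z : ℂ => (r' : ℂ) * z) (Metric.closedBall 0 1) (Metric.ball 0 1) := by
    intro z hz
    rw [mem_closedBall_zero_iff] at hz
    rw [mem_ball_zero_iff, norm_mul, Complex.norm_real, Real.norm_of_nonneg hr0']
    calc r' * ‖z‖ ≤ r' * 1 := mul_le_mul_of_nonneg_left hz hr0'
      _ = r' := mul_one _
      _ < 1 := hr1'
  have hdc : DifferentiableOn ℂ f (Metric.closedBall 0 1) :=
    hF.comp (by fun_prop) hmaps
  have hfd : DiffContOnCl ℂ f (Metric.ball 0 1) := by
    apply DifferentiableOn.diffContOnCl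
    rw [closure_ball (0 : ℂ) one_ne_zero]
    exact hdc
  have key := hfd.circleAverage_poissonKernel_smul' hwb
  rw [Real.circleAverage_def] at key
  have hfw : f w = F (ep (r * r') θ) := by
    simp only [hf, hw, DSG.mul_ep]
  rw [← hfw, ← key]
  unfold po
  have hint : ∀ t : ℝ, ((‖circleMap 0 1 t - 0‖ ^ 2 - ‖w - 0‖ ^ 2) /
      ‖(circleMap 0 1 t - 0) - (w - 0)‖ ^ 2) • f (circleMap 0 1 t) =
      (pk w t : ℂ) * F (ep r' t) := by
    intro t
    rw [DSG.circle_eq, sub_zero, sub_zero, DSG.norm_ep 1 t zero_le_one, Complex.real_smul]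
    simp only [hf, DSG.mul_ep, one_mul, one_pow]
    rfl
  simp only [hint]
  have hper : Function.Periodic (fun t : ℝ => (pk w t : ℂ) * F (ep r' t)) (2 * π) := by
    intro t
    simp only [pk, DSG.ep_per]
  have hshift := hper.intervalIntegral_add_eq 0 (-π)
  rw [zero_add, show -π + 2 * π = π by ring] at hshift
  rw [hshift, intervalIntegral.integral_of_le (by linarith [Real.pi_pos])]
  rw [Complex.real_smul]
  unfold cm
  congr 1
  push_cast
  ring

end Pool.Agent.FBM
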