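import Pool.Agent.FBM.StmtD

/-!
# FBM, module DTA
-/

open MeasureTheory Set Filter Topology
open scoped Real

namespace Pool.Agent.FBM

namespace DTA

theorem intv {τ : ℝ → ℝ} (hp : Function.Periodic τ (2 * π)) (hi : Integrable τ cm) (a b : ℝ) :
    IntervalIntegrable τ volume a b := by
  have h1 : IntervalIntegrable τ volume (-π) (-π + 2 * π) := by
    rw [intervalIntegrable_iff, uIoc_of_le (by linarith [Real.pi_pos])]
    have : -π + 2 * π = π := by ring
    rw [this]
    exact hi
  exact hp.intervalIntegrable (by positivity : (2 * π : ℝ) ≠ 0) h1 a b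

end DTA

theorem t_DTA : Stmt_DTA := by
  intro τ hp hi _ η hη
  have hint := DTA.intv hp hi
  have hcont : Continuous (fun b => ∫ t in (0 : ℝ)..b, τ t) :=
    intervalIntegral.continuous_primitive hint 0
  have hK : IsCompact (Icc (-π) (π + 1)) := isCompact_Icc
  have huc := hK.uniformContinuousOn_of_continuous hcont.continuousOn
  rw [Metric.uniformContinuousOn_iff] at huc
  obtain ⟨δ, hδ, h⟩ := huc η hη
  refine ⟨min (δ / 2) 1, by positivity, ?_⟩
  intro a
  set d := min (δ / 2) 1 with hd
  have hd0 : 0 < d := by positivity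
  have hd1 : d ≤ 1 := min_le_right _ _
  have hd2 : d ≤ δ / 2 := min_le_left _ _
  obtain ⟨n, hn, -⟩ := existsUnique_sub_zsmul_mem_Ico (by linarith [Real.pi_pos] : (0 : ℝ) < 2 * π)
    a (-π)
  set a' := a - n • (2 * π) with ha'
  have hshift : ∫ t in a..a + d, τ t = ∫ t in a'..a' + d, τ t := by
    have h1 : ∫ t in a'..a' + d, τ (t + n • (2 * π)) = ∫ t in a..a + d, τ t := by
      rw [intervalIntegral.integral_comp_add_right]
      congr 1 <;> rw [ha'] <;> ring
    rw [← h1]
    refine intervalIntegral.integral_congr (fun t _ => ?_)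
    have := hp.zsmul n t
    simpa using this
  rw [hshift]
  have hsub : ∫ t in a'..a' + d, τ t
      = (∫ t in (0 : ℝ)..(a' + d), τ t) - ∫ t in (0 : ℝ)..a', τ t := by
    rw [intervalIntegral.integral_interval_sub_left (hint _ _) (hint _ _)]
  rw [hsub]
  have hm1 : a' + d ∈ Icc (-π) (π + 1) := by
    constructor
    · linarith [hn.1]
    · linarith [hn.2]
  have hm2 : a' ∈ Icc (-π) (π + 1) := by
    constructor
    · linarith [hn.1]
    · linarith [hn.2]
  have h3 := h (a' + d) hm1 a' hm2 (by
    rw [Real.dist_eq]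
    have : a' + d - a' = d := by ring
    rw [this, abs_of_pos hd0]
    linarith)
  rw [Real.dist_eq] at h3
  exact le_of_lt (lt_of_le_of_lt (le_abs_self _) h3)

end Pool.Agent.FBM
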