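import Pool.Agent.FBM.StmtD

/-!
# DUC: uniform convergence of the Herglotz integral on the circles (PAPER_DE.md, DUC)
-/

open MeasureTheory Set Filter Topology
open scoped Real

namespace Pool.Agent.FBM

namespace DUC

theorem ep_per (r : ℝ) : Function.Periodic (ep r) (2 * π) := by
  intro t
  unfold ep
  have h : (((t + 2 * π : ℝ) : ℂ)) * Complex.I = (t : ℂ) * Complex.I + 2 * π * Complex.I := by
    push_cast
    ring
  rw [h, Complex.exp_add, Complex.exp_two_pi_mul_I, mul_one]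

theorem pk_zero (θ t : ℝ) : pk (ep 0 θ) t = 1 := by
  unfold pk ep
  simp [Complex.norm_exp_ofReal_mul_I]

/-- Oscillation over long intervals. -/
theorem chain {F : ℝ → ℂ} {δ : ℝ} (h : ∀ s t : ℝ, |s - t| ≤ δ → ‖F s - F t‖ ≤ 1) :
    ∀ (K : ℕ) (s t : ℝ), |s - t| ≤ K * δ → ‖F s - F t‖ ≤ K := by
  intro K
  induction K with
  | zero =>
    intro s t hst
    rw [Nat.cast_zero, zero_mul] at hst
    have h1 : s - t = 0 := abs_eq_zero.1 (le_antisymm hst (abs_nonneg _))
    rw [sub_eq_zero.1 h1, sub_self, norm_zero, Nat.cast_zero]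
  | succ K ih =>
    intro s t hst
    have hK : (0 : ℝ) < ((K : ℝ) + 1) := by positivity
    rw [Nat.cast_succ] at hst ⊢
    set m : ℝ := s + (t - s) * (K / (K + 1)) with hm
    have h1 : |s - m| ≤ K * δ := by
      have e : s - m = (s - t) * (K / (K + 1)) := by rw [hm]; ring
      rw [e, abs_mul, abs_of_nonneg (by positivity : (0 : ℝ) ≤ K / (K + 1))]
      calc |s - t| * (K / (K + 1)) ≤ ((K + 1) * δ) * (K / (K + 1)) := by gcongr
        _ = K * δ := by field_simp
    have h2 : |m - t| ≤ δ := by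
      have e : m - t = (s - t) * (1 / (K + 1)) := by
        rw [hm]
        field_simp
        ring
      rw [e, abs_mul, abs_of_nonneg (by positivity : (0 : ℝ) ≤ 1 / ((K : ℝ) + 1))]
      calc |s - t| * (1 / (K + 1)) ≤ ((K + 1) * δ) * (1 / (K + 1)) := by gcongr
        _ = δ := by field_simp
    have e : F s - F t = (F s - F m) + (F m - F t) := by ring
    rw [e]
    exact (norm_add_le _ _).trans (add_le_add (ih s m h1) (h m t h2))

theorem cm_mass : cm.real univ = 2 * π := by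
  unfold cm
  rw [Measure.real, Measure.restrict_apply_univ, Real.volume_Ioc, ENNReal.toReal_ofReal]
  · ring
  · linarith [Real.pi_pos]

instance : IsFiniteMeasure cm := by
  unfold cm
  infer_instance

/-- A continuous periodic function is close to its mean value. -/
theorem mean {F : ℝ → ℂ} {c : ℂ} {B : ℝ} (hF : Continuous F)
    (hc : c = (1 / (2 * π) : ℂ) * ∫ t, F t ∂cm)
    (h : ∀ s ∈ Ioc (-π) π, ∀ t ∈ Ioc (-π) π, ‖F s - F t‖ ≤ B) :
    ∀ t ∈ Ioc (-π) π, ‖F t - c‖ ≤ B := by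
  intro t ht
  have hpi : (0 : ℝ) < 2 * π := by positivity
  have hint : Integrable F cm := by
    unfold cm
    exact (hF.integrableOn_Icc (a := -π) (b := π)).mono_set Ioc_subset_Icc_self
  have h1 : F t - c = (1 / (2 * π) : ℂ) * ∫ s, (F t - F s) ∂cm := by
    rw [integral_sub (integrable_const _) hint, integral_const, cm_mass, mul_sub, ← hc,
      Complex.real_smul]
    congr 1
    have h2 : ((2 * π : ℝ) : ℂ) ≠ 0 := by exact_mod_cast hpi.ne'
    push_cast at h2 ⊢
    field_simp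
  rw [h1, norm_mul]
  have h3 : ‖∫ s, (F t - F s) ∂cm‖ ≤ B * (2 * π) := by
    rw [← cm_mass]
    refine norm_integral_le_of_norm_le_const ?_
    unfold cm
    refine (ae_restrict_iff' measurableSet_Ioc).2 (Eventually.of_forall fun s hs => h t ht s hs)
  have h4 : ‖(1 / (2 * π) : ℂ)‖ = 1 / (2 * π) := by
    rw [norm_div, norm_one, norm_mul, Complex.norm_real, Real.norm_eq_abs, abs_of_pos Real.pi_pos]
    simp
  rw [h4]
  calc 1 / (2 * π) * ‖∫ s, (F t - F s) ∂cm‖ ≤ 1 / (2 * π) * (B * (2 * π)) := by gcongr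
    _ = B := by field_simp

end DUC

/-- DUC: uniform convergence on the circles. -/
theorem t_DUC (hDHD : Stmt_DHD) (hDEQ : Stmt_DEQ) (hDPC : Stmt_DPC) (hDSG : Stmt_DSG) :
    Stmt_DUC := by
  intro u τ C hPB
  have hui : Integrable u cm := by
    obtain ⟨B, hB⟩ := hPB.bdd
    refine Integrable.of_bound (C := B) hPB.meas.aestronglyMeasurable ?_
    exact Eventually.of_forall fun t => by rw [Real.norm_eq_abs]; exact hB t
  have hd := hDHD u hui
  have heq := hDEQ u τ C hPB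
  have hper : ∀ r : ℝ, Function.Periodic (fun t => hz u (ep r t)) (2 * π) := by
    intro r t
    change hz u (ep r (t + 2 * π)) = hz u (ep r t)
    rw [DUC.ep_per r t]
  have hcont : ∀ r : ℝ, 0 ≤ r → r < 1 → Continuous (fun t => hz u (ep r t)) := by
    intro r h0 h1
    rw [Metric.continuous_iff]
    intro t ε hε
    obtain ⟨δ, hδ, h⟩ := heq (ε / 2) (half_pos hε)
    refine ⟨δ, hδ, fun s hs => ?_⟩
    rw [dist_eq_norm]
    refine lt_of_le_of_lt (h r s t h0 h1 ?_) (half_lt_self hε)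
    rw [Real.dist_eq] at hs
    exact hs.le
  -- uniform bound
  obtain ⟨M, hM⟩ : ∃ M : ℝ, ∀ r : ℝ, 0 ≤ r → r < 1 → ∀ t, ‖hz u (ep r t)‖ ≤ M := by
    obtain ⟨δ, hδ, h⟩ := heq 1 one_pos
    obtain ⟨K, hK⟩ := exists_nat_ge (2 * π / δ)
    have hK' : 2 * π ≤ K * δ := by
      rw [div_le_iff₀ hδ] at hK
      exact hK
    refine ⟨K + ‖hz u 0‖, fun r h0 h1 t => ?_⟩
    have hmean : hz u 0 = (1 / (2 * π) : ℂ) * ∫ t, hz u (ep r t) ∂cm := by
      have h2 := hDSG (hz u) hd 0 r 0 le_rfl one_pos h0 h1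
      rw [zero_mul] at h2
      have h3 : ep 0 0 = 0 := by simp [ep]
      have h4 : ep 0 (0 : ℝ) = 0 := h3
      unfold po at h2
      rw [h4] at h2
      rw [h2]
      congr 1
      refine integral_congr_ae (Eventually.of_forall fun s => ?_)
      have h5 := DUC.pk_zero 0 s
      rw [h3] at h5
      dsimp only
      rw [h5, Complex.ofReal_one, one_mul]
    have h6 := DUC.mean (hcont r h0 h1) hmean (B := K) (by
      intro s hs t ht
      refine DUC.chain (fun s t hst => h r s t h0 h1 hst) K s t (le_trans ?_ hK')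
      rw [abs_le]
      constructor <;> linarith [hs.1, hs.2, ht.1, ht.2])
    obtain ⟨y, hy, hty⟩ := (hper r).exists_mem_Ioc Real.two_pi_pos t (-π)
    have hy' : y ∈ Ioc (-π) π := by
      refine ⟨hy.1, le_trans hy.2 (by linarith)⟩
    have h7 := h6 y hy'
    have hty2 : hz u (ep r t) = hz u (ep r y) := hty
    rw [hty2]
    calc ‖hz u (ep r y)‖ = ‖(hz u (ep r y) - hz u 0) + hz u 0‖ := by rw [sub_add_cancel]
      _ ≤ ‖hz u (ep r y) - hz u 0‖ + ‖hz u 0‖ := norm_add_le _ _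
      _ ≤ K + ‖hz u 0‖ := by gcongr
  -- uniformly Cauchy
  have hcau : ∀ ε : ℝ, 0 < ε → ∃ r₀ : ℝ, 0 ≤ r₀ ∧ r₀ < 1 ∧ ∀ r r' : ℝ, r₀ < r → r ≤ r' → r' < 1 →
      ∀ t, ‖hz u (ep r t) - hz u (ep r' t)‖ ≤ ε := by
    intro ε hε
    obtain ⟨δ, hδ, h⟩ := heq (ε / 2) (half_pos hε)
    obtain ⟨r₀, hr₀, h2⟩ := hDPC (ε / 2) δ M (half_pos hε) hδ
    refine ⟨max r₀ 0, le_max_right _ _, max_lt hr₀ one_pos, fun r r' hr hrr hr' t => ?_⟩
    have hr0 : r₀ < r := lt_of_le_of_lt (le_max_left _ _) hr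
    have hrp : 0 < r := lt_of_le_of_lt (le_max_right _ _) hr
    have hrp' : 0 < r' := lt_of_lt_of_le hrp hrr
    rcases hrr.lt_or_eq with hlt | heq'
    · have hq1 : r / r' < 1 := (div_lt_one hrp').2 hlt
      have hq0 : 0 ≤ r / r' := (div_pos hrp hrp').le
      have hq2 : r₀ < r / r' := by
        refine lt_of_lt_of_le hr0 ?_
        rw [le_div_iff₀ hrp']
        nlinarith
      have h3 := h2 (r / r') hq2 hq0 hq1 (fun t => hz u (ep r' t)) (hcont r' hrp'.le hr')
        (hper r') (fun s t hst => h r' s t hrp'.le hr' hst) (fun t => hM r' hrp'.le hr' t) t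
      rw [← hDSG (hz u) hd (r / r') r' t hq0 hq1 hrp'.le hr', div_mul_cancel₀ _ hrp'.ne'] at h3
      linarith
    · rw [heq', sub_self, norm_zero]
      exact hε.le
  -- the limit
  set ρ : ℕ → ℝ := fun n => 1 - 1 / ((n : ℝ) + 2) with hρ
  have hρ0 : ∀ n, 0 ≤ ρ n := by
    intro n
    rw [hρ]
    dsimp only
    have : (1 : ℝ) / ((n : ℝ) + 2) ≤ 1 := by
      rw [div_le_one (by positivity)]
      have : (0 : ℝ) ≤ n := Nat.cast_nonneg n
      linarith
    linarith
  have hρ1 : ∀ n, ρ n < 1 := by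
    intro n
    rw [hρ]
    dsimp only
    have : (0 : ℝ) < 1 / ((n : ℝ) + 2) := by positivity
    linarith
  have hρm : Monotone ρ := by
    intro n m hnm
    rw [hρ]
    dsimp only
    have h1 : (n : ℝ) ≤ m := Nat.cast_le.2 hnm
    have h2 : (1 : ℝ) / ((m : ℝ) + 2) ≤ 1 / ((n : ℝ) + 2) := by
      apply one_div_le_one_div_of_le (by positivity)
      linarith
    linarith
  have hρt : Tendsto ρ atTop (𝓝 1) := by
    have h1 : Tendsto (fun n : ℕ => 1 / ((n : ℝ) + 2)) atTop (𝓝 0) := by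
      have h2 : Tendsto (fun n : ℕ => (n : ℝ) + 2) atTop atTop :=
        tendsto_atTop_add_const_right _ _ tendsto_natCast_atTop_atTop
      have h3 := h2.inv_tendsto_atTop
      simp only [one_div]
      exact h3
    have h3 := h1.const_sub (1 : ℝ)
    rw [sub_zero] at h3
    exact h3
  have hev : ∀ r : ℝ, r < 1 → ∀ᶠ n in atTop, r < ρ n := fun r hr =>
    hρt.eventually (lt_mem_nhds hr)
  have hcs : ∀ t, CauchySeq (fun n => hz u (ep (ρ n) t)) := by
    intro t
    rw [Metric.cauchySeq_iff']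
    intro ε hε
    obtain ⟨r₀, h0, h1, h2⟩ := hcau (ε / 2) (half_pos hε)
    obtain ⟨N, hN⟩ := (hev r₀ h1).exists
    refine ⟨N, fun n hn => ?_⟩
    rw [dist_comm, dist_eq_norm]
    exact lt_of_le_of_lt (h2 (ρ N) (ρ n) hN (hρm hn) (hρ1 n) t) (half_lt_self hε)
  choose g hg using fun t => cauchySeq_tendsto_of_complete (hcs t)
  refine ⟨g, ?_, ?_, ?_⟩
  · rw [Metric.continuous_iff]
    intro t ε hε
    obtain ⟨δ, hδ, h⟩ := heq (ε / 2) (half_pos hε)
    refine ⟨δ, hδ, fun s hs => ?_⟩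
    rw [Real.dist_eq] at hs
    rw [dist_eq_norm]
    refine lt_of_le_of_lt ?_ (half_lt_self hε)
    exact le_of_tendsto ((hg s).sub (hg t)).norm
      (Eventually.of_forall fun n => h (ρ n) s t (hρ0 n) (hρ1 n) hs.le)
  · intro t
    refine tendsto_nhds_unique (hg (t + 2 * π)) ?_
    have h1 : (fun n => hz u (ep (ρ n) (t + 2 * π))) = fun n => hz u (ep (ρ n) t) := by
      funext n
      rw [DUC.ep_per]
    rw [h1]
    exact hg t
  · intro ε hε
    obtain ⟨r₀, h0, h1, h2⟩ := hcau ε hε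
    refine ⟨r₀, h1, fun r t hr _ hr1 => ?_⟩
    refine le_of_tendsto (tendsto_const_nhds.sub (hg t)).norm ?_
    filter_upwards [hev r hr1] with n hn
    exact h2 r (ρ n) hr hn.le (hρ1 n) t

end Pool.Agent.FBM
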