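import Pool.Agent.FBM.StmtD

/-!
# DXC: the continuous extension of the Herglotz integral to the closed disc
-/

open MeasureTheory Set Filter Topology
open scoped Real

namespace Pool.Agent.FBM

namespace DXC

lemma ep_arg (z : ℂ) (t : ℝ) :
    ep ‖z‖ (t + Complex.arg (z * Complex.exp (-(t * Complex.I)))) = z := by
  set w : ℂ := z * Complex.exp (-(t * Complex.I)) with hw
  have h1 : ‖w‖ = ‖z‖ := by
    have : ‖Complex.exp (-(t * Complex.I))‖ = 1 := by
      have := Complex.norm_exp_ofReal_mul_I (-t)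
      simpa using this
    rw [hw, norm_mul, this, mul_one]
  have h2 : (‖w‖ : ℂ) * Complex.exp (Complex.arg w * Complex.I) = w :=
    Complex.norm_mul_exp_arg_mul_I w
  rw [h1] at h2
  unfold ep
  push_cast
  rw [add_mul, Complex.exp_add]
  calc (‖z‖ : ℂ) * (Complex.exp (t * Complex.I) * Complex.exp (Complex.arg w * Complex.I))
      = Complex.exp (t * Complex.I) * ((‖z‖ : ℂ) * Complex.exp (Complex.arg w * Complex.I)) := by
        ring
    _ = z * (Complex.exp (t * Complex.I) * Complex.exp (-(t * Complex.I))) := by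
        rw [h2, hw]; ring
    _ = z := by rw [← Complex.exp_add, add_neg_cancel, Complex.exp_zero, mul_one]

lemma tendsto_angle (t : ℝ) :
    Tendsto (fun z : ℂ => t + Complex.arg (z * Complex.exp (-(t * Complex.I)))) (𝓝 (ep 1 t))
      (𝓝 t) := by
  have h1 : ep 1 t * Complex.exp (-(t * Complex.I)) = 1 := by
    unfold ep
    rw [Complex.ofReal_one, one_mul, ← Complex.exp_add, add_neg_cancel, Complex.exp_zero]
  have h2 : ContinuousAt Complex.arg (ep 1 t * Complex.exp (-(t * Complex.I))) := by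
    rw [h1]
    exact Complex.continuousAt_arg Complex.one_mem_slitPlane
  have h3 : Tendsto (fun z : ℂ => z * Complex.exp (-(t * Complex.I))) (𝓝 (ep 1 t))
      (𝓝 (ep 1 t * Complex.exp (-(t * Complex.I)))) :=
    (continuous_id.mul continuous_const).tendsto _
  have h4 := (h2.tendsto.comp h3).const_add t
  rw [h1, Complex.arg_one, add_zero] at h4
  exact h4

lemma norm_ep_one (t : ℝ) : ‖ep 1 t‖ = 1 := by
  unfold ep
  rw [Complex.ofReal_one, one_mul, Complex.norm_exp_ofReal_mul_I]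

lemma tendsto_bdry {u : ℝ → ℝ} {g : ℝ → ℂ} (hg : Continuous g)
    (hu : ∀ ε : ℝ, 0 < ε → ∃ r₀ < 1, ∀ r t : ℝ, r₀ < r → 0 ≤ r → r < 1 →
      ‖hz u (ep r t) - g t‖ ≤ ε) (t : ℝ) :
    Tendsto (hz u) (𝓝[Metric.ball 0 1] (ep 1 t)) (𝓝 (g t)) := by
  set θ : ℂ → ℝ := fun z => t + Complex.arg (z * Complex.exp (-(t * Complex.I))) with hθ
  have h1 : Tendsto (fun z => g (θ z)) (𝓝[Metric.ball 0 1] (ep 1 t)) (𝓝 (g t)) :=
    (hg.tendsto t).comp ((tendsto_angle t).mono_left nhdsWithin_le_nhds)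
  have h2 : Tendsto (fun z => hz u z - g (θ z)) (𝓝[Metric.ball 0 1] (ep 1 t)) (𝓝 0) := by
    rw [Metric.tendsto_nhds]
    intro ε hε
    obtain ⟨r₀, hr₀, h⟩ := hu (ε / 2) (half_pos hε)
    have h3 : Tendsto (fun z : ℂ => ‖z‖) (𝓝[Metric.ball 0 1] (ep 1 t)) (𝓝 1) := by
      have := (continuous_norm.tendsto (ep 1 t)).mono_left
        (nhdsWithin_le_nhds (s := Metric.ball (0 : ℂ) 1))
      rwa [norm_ep_one] at this
    filter_upwards [h3.eventually (lt_mem_nhds hr₀), self_mem_nhdsWithin] with z hz1 hz2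
    rw [mem_ball_zero_iff] at hz2
    have h4 := h ‖z‖ (θ z) hz1 (norm_nonneg z) hz2
    rw [hθ] at h4
    simp only [ep_arg] at h4
    rw [dist_zero_right]
    have h5 : ‖hz u z - g (θ z)‖ ≤ ε / 2 := h4
    linarith
  have h6 := h2.add h1
  simpa using h6

end DXC

theorem t_DXC : Stmt_DXC := by
  intro u g hd hg _ hu
  have hcl : closure (Metric.ball (0 : ℂ) 1) = Metric.closedBall 0 1 :=
    closure_ball (0 : ℂ) one_ne_zero
  have hb := DXC.tendsto_bdry hg hu
  refine ⟨?_, ?_, ?_⟩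
  · refine continuousOn_extendFrom hcl.symm.subset ?_
    intro x hx
    rcases lt_or_eq_of_le (mem_closedBall_zero_iff.1 hx) with hx1 | hx1
    · exact ⟨hz u x, (hd.continuousOn x (mem_ball_zero_iff.2 hx1))⟩
    · have hx2 : ep 1 (Complex.arg x) = x := by
        have := DXC.ep_arg x 0
        simpa [hx1] using this
      refine ⟨g (Complex.arg x), ?_⟩
      have := hb (Complex.arg x)
      rwa [hx2] at this
  · exact extendFrom_extends hd.continuousOn
  · intro t
    refine extendFrom_eq ?_ (hb t)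
    rw [hcl, mem_closedBall_zero_iff, DXC.norm_ep_one]

end Pool.Agent.FBM
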